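import Pool.Agent.Helper25.KV.Goals

/-!
Packet KV-GP1: elementary facts on the bump and the packets.
-/

set_option autoImplicit false

namespace Pool.Agent.Helper90.KV.GP

open Real MeasureTheory Set Filter Topology
open Pool.Agent.Helper25.KV

theorem bmp_contDiff : ContDiff ℝ (⊤ : ℕ∞) bmp := by
  have h1 : ContDiff ℝ (⊤ : ℕ∞) (fun y : ℝ => Real.smoothTransition (2 + 2 * y)) :=
    Real.smoothTransition.contDiff.comp (contDiff_const.add (contDiff_const.mul contDiff_id))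
  have h2 : ContDiff ℝ (⊤ : ℕ∞) (fun y : ℝ => Real.smoothTransition (2 - 2 * y)) :=
    Real.smoothTransition.contDiff.comp (contDiff_const.sub (contDiff_const.mul contDiff_id))
  exact h1.mul h2

theorem bmp_nonneg (y : ℝ) : 0 ≤ bmp y :=
  mul_nonneg (Real.smoothTransition.nonneg _) (Real.smoothTransition.nonneg _)

theorem bmp_le_one (y : ℝ) : bmp y ≤ 1 :=
  mul_le_one₀ (Real.smoothTransition.le_one _) (Real.smoothTransition.nonneg _)
    (Real.smoothTransition.le_one _)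

theorem bmp_zero {y : ℝ} (hy : 1 ≤ |y|) : bmp y = 0 := by
  unfold bmp
  rcases le_abs.1 hy with h | h
  · rw [Real.smoothTransition.zero_of_nonpos (x := 2 - 2 * y) (by linarith), mul_zero]
  · rw [Real.smoothTransition.zero_of_nonpos (x := 2 + 2 * y) (by linarith), zero_mul]

theorem bmp_one {y : ℝ} (hy : |y| ≤ 1 / 2) : bmp y = 1 := by
  unfold bmp
  obtain ⟨h1, h2⟩ := abs_le.1 hy
  rw [Real.smoothTransition.one_of_one_le (x := 2 - 2 * y) (by linarith),
    Real.smoothTransition.one_of_one_le (x := 2 + 2 * y) (by linarith), mul_one]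

theorem bmp_compact : HasCompactSupport bmp := by
  refine HasCompactSupport.intro (isCompact_Icc (a := (-1 : ℝ)) (b := 1)) fun y hy => ?_
  apply bmp_zero
  by_contra h
  push Not at h
  exact hy (abs_le.1 h.le)

theorem bmp_deriv_bdd : ∃ D : ℝ, ∀ y, |deriv bmp y| ≤ D := by
  obtain ⟨C, hC⟩ := (bmp_contDiff.continuous_deriv (by simp)).bounded_above_of_compact_support
    bmp_compact.deriv
  exact ⟨C, fun y => by simpa [Real.norm_eq_abs] using hC y⟩

theorem bmp_lip {D : ℝ} (hD : ∀ y, |deriv bmp y| ≤ D) (x y : ℝ) :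
    |bmp x - bmp y| ≤ D * |x - y| := by
  have h := Convex.norm_image_sub_le_of_norm_deriv_le (f := bmp) (s := Set.univ) (C := D)
    (x := y) (y := x)
    (fun z _ => (bmp_contDiff.differentiable (by simp)) z)
    (fun z _ => by rw [Real.norm_eq_abs]; exact hD z) convex_univ (Set.mem_univ _) (Set.mem_univ _)
  simpa [Real.norm_eq_abs] using h

theorem four_pow_le {m M : ℕ} (h : m ≤ M) (k : ℕ) : (4 : ℝ) ^ (m * k) ≤ 4 ^ (M * k) :=
  pow_le_pow_right₀ (by norm_num) (Nat.mul_le_mul_right k h)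

theorem pk_supp {m M : ℕ} (h : m ≤ M) (k : ℕ) (t x : ℝ) (hx : pk m M k t x ≠ 0) :
    -(5 * 4 ^ (M * k)) < x ∧ x < -(3 * 4 ^ (M * k)) := by
  have h1 : bmp ((x + 4 * 4 ^ (M * k)) / 4 ^ (m * k)) ≠ 0 := by
    intro h0
    apply hx
    unfold pk
    rw [h0, zero_mul, zero_div]
  have h2 : |(x + 4 * 4 ^ (M * k)) / 4 ^ (m * k)| < 1 := by
    by_contra h3
    push Not at h3
    exact h1 (bmp_zero h3)
  have hp : (0 : ℝ) < 4 ^ (m * k) := by positivity
  rw [abs_div, abs_of_pos hp, div_lt_one hp] at h2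
  have h3 := lt_of_lt_of_le h2 (four_pow_le h k)
  obtain ⟨h4, h5⟩ := abs_lt.1 h3
  constructor <;> linarith

theorem gap {M : ℕ} (hM : 1 ≤ M) {j k : ℕ} (hjk : j < k) :
    (5 : ℝ) * 4 ^ (M * j) + 1 ≤ 3 * 4 ^ (M * k) := by
  have h1 : M * j + 1 ≤ M * k := by
    have : M * j + M ≤ M * k := by
      rw [← Nat.mul_succ]
      exact Nat.mul_le_mul_left M hjk
    omega
  have h2 : (4 : ℝ) ^ (M * j + 1) ≤ 4 ^ (M * k) := pow_le_pow_right₀ (by norm_num) h1
  have h3 : (1 : ℝ) ≤ 4 ^ (M * j) := one_le_pow₀ (by norm_num)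
  rw [pow_succ] at h2
  linarith

theorem pk_disj {m M : ℕ} (h : m ≤ M) (hM : 1 ≤ M) {j k : ℕ} (hjk : j < k) (t x : ℝ)
    (hj : pk m M j t x ≠ 0) : pk m M k t x = 0 := by
  by_contra hk
  have h1 := pk_supp h j t x hj
  have h2 := pk_supp h k t x hk
  have h3 := gap hM hjk
  linarith [h1.1, h2.2]

theorem pk_one {m M : ℕ} (h : m ≤ M) (hM : 1 ≤ M) (k0 : ℕ) (t x : ℝ) :
    ∃ kx : ℕ, ∀ k, k ≠ kx → pk m M (k0 + k) t x = 0 := by
  by_cases hex : ∃ k, pk m M (k0 + k) t x ≠ 0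
  · obtain ⟨kx, hkx⟩ := hex
    refine ⟨kx, fun k hk => ?_⟩
    rcases lt_or_gt_of_ne hk with h1 | h1
    · by_contra h2
      exact hkx (pk_disj h hM (by omega) t x h2)
    · exact pk_disj h hM (by omega) t x hkx
  · push Not at hex
    exact ⟨0, fun k _ => hex k⟩

theorem den_ge (m k : ℕ) : (1 : ℝ) ≤ 2 ^ k * 2 ^ (m * k) :=
  one_le_mul_of_one_le_of_one_le (one_le_pow₀ (by norm_num)) (one_le_pow₀ (by norm_num))

theorem pk_abs_le (m M k : ℕ) (t x : ℝ) : |pk m M k t x| ≤ 1 := by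
  unfold pk
  have hd := den_ge m k
  have hpos : (0 : ℝ) < 2 ^ k * 2 ^ (m * k) := lt_of_lt_of_le one_pos hd
  rw [abs_div, abs_of_pos hpos, div_le_one hpos, abs_mul]
  refine le_trans ?_ hd
  have h1 : |bmp ((x + 4 * 4 ^ (M * k)) / 4 ^ (m * k))| ≤ 1 := by
    rw [abs_of_nonneg (bmp_nonneg _)]
    exact bmp_le_one _
  exact mul_le_one₀ h1 (abs_nonneg _) (Real.abs_cos_le_one _)

theorem cos_lip (a b : ℝ) : |Real.cos a - Real.cos b| ≤ |a - b| := by
  have h := Convex.norm_image_sub_le_of_norm_deriv_le (f := Real.cos) (s := Set.univ) (C := 1)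
    (x := b) (y := a)
    (fun z _ => Real.differentiable_cos z)
    (fun z _ => by
      rw [Real.deriv_cos, norm_neg, Real.norm_eq_abs]
      exact Real.abs_sin_le_one z) convex_univ (Set.mem_univ _) (Set.mem_univ _)
  simpa [Real.norm_eq_abs] using h

theorem pk_lip {D : ℝ} (hD : ∀ y, |deriv bmp y| ≤ D) (m M k : ℕ) (t x y : ℝ) :
    |pk m M k t x - pk m M k t y| ≤ (D + 1) * |x - y| := by
  have hD0 : 0 ≤ D := (abs_nonneg _).trans (hD 0)
  set X := (x + 4 * 4 ^ (M * k)) / 4 ^ (m * k) with hX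
  set Y := (y + 4 * 4 ^ (M * k)) / 4 ^ (m * k) with hY
  set a := 2 ^ k * x + 8 ^ k * t with ha
  set b := 2 ^ k * y + 8 ^ k * t with hb
  have hd := den_ge m k
  have hpos : (0 : ℝ) < 2 ^ k * 2 ^ (m * k) := lt_of_lt_of_le one_pos hd
  have h4 : (1 : ℝ) ≤ 4 ^ (m * k) := one_le_pow₀ (by norm_num)
  have h2k : (0 : ℝ) < 2 ^ k := by positivity
  have h2k1 : (1 : ℝ) ≤ 2 ^ k := one_le_pow₀ (by norm_num)
  have h2m : (1 : ℝ) ≤ 2 ^ (m * k) := one_le_pow₀ (by norm_num)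
  have e1 : pk m M k t x - pk m M k t y
      = ((bmp X - bmp Y) * Real.cos a + bmp Y * (Real.cos a - Real.cos b))
        / (2 ^ k * 2 ^ (m * k)) := by
    unfold pk
    rw [← hX, ← hY, ← ha, ← hb]
    ring
  have hXY : |X - Y| ≤ |x - y| := by
    have : X - Y = (x - y) / 4 ^ (m * k) := by
      rw [hX, hY]; ring
    rw [this, abs_div, abs_of_pos (by positivity : (0 : ℝ) < 4 ^ (m * k))]
    exact div_le_self (abs_nonneg _) h4
  have hab : |a - b| = 2 ^ k * |x - y| := by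
    have : a - b = 2 ^ k * (x - y) := by
      rw [ha, hb]; ring
    rw [this, abs_mul, abs_of_pos h2k]
  have b1 : |(bmp X - bmp Y) * Real.cos a| ≤ D * |x - y| := by
    rw [abs_mul]
    calc |bmp X - bmp Y| * |Real.cos a| ≤ |bmp X - bmp Y| * 1 :=
          mul_le_mul_of_nonneg_left (Real.abs_cos_le_one _) (abs_nonneg _)
      _ = |bmp X - bmp Y| := mul_one _
      _ ≤ D * |X - Y| := bmp_lip hD X Y
      _ ≤ D * |x - y| := mul_le_mul_of_nonneg_left hXY hD0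
  have b2 : |bmp Y * (Real.cos a - Real.cos b)| ≤ 2 ^ k * |x - y| := by
    rw [abs_mul, abs_of_nonneg (bmp_nonneg _)]
    calc bmp Y * |Real.cos a - Real.cos b| ≤ 1 * |Real.cos a - Real.cos b| :=
          mul_le_mul_of_nonneg_right (bmp_le_one _) (abs_nonneg _)
      _ = |Real.cos a - Real.cos b| := one_mul _
      _ ≤ |a - b| := cos_lip a b
      _ = 2 ^ k * |x - y| := hab
  rw [e1, abs_div, abs_of_pos hpos, div_le_iff₀ hpos]
  have hxy := abs_nonneg (x - y)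
  have b3 : |(bmp X - bmp Y) * Real.cos a + bmp Y * (Real.cos a - Real.cos b)|
      ≤ D * |x - y| + 2 ^ k * |x - y| := (abs_add_le _ _).trans (add_le_add b1 b2)
  refine b3.trans ?_
  have c1 : D * |x - y| ≤ D * |x - y| * (2 ^ k * 2 ^ (m * k)) :=
    le_mul_of_one_le_right (mul_nonneg hD0 hxy) hd
  have c2 : 2 ^ k * |x - y| ≤ |x - y| * (2 ^ k * 2 ^ (m * k)) := by
    have : 2 ^ k * |x - y| ≤ (2 ^ k * |x - y|) * 2 ^ (m * k) :=
      le_mul_of_one_le_right (mul_nonneg h2k.le hxy) h2m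
    linarith [this]
  linarith

theorem gp_eq_single {m M : ℕ} (k0 n : ℕ) (t x : ℝ) {kx : ℕ}
    (hkx : ∀ k, k ≠ kx → pk m M (k0 + k) t x = 0) :
    gp m M k0 n t x = if kx ∈ Finset.range n then pk m M (k0 + kx) t x else 0 := by
  unfold gp
  by_cases h : kx ∈ Finset.range n
  · rw [if_pos h]
    exact Finset.sum_eq_single_of_mem kx h fun k _ hk => hkx k hk
  · rw [if_neg h]
    refine Finset.sum_eq_zero fun k hk => hkx k ?_
    rintro rfl
    exact h hk

theorem gp_abs_le {m M : ℕ} (h : m ≤ M) (hM : 1 ≤ M) (k0 n : ℕ) (t x : ℝ) :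
    |gp m M k0 n t x| ≤ 1 := by
  obtain ⟨kx, hkx⟩ := pk_one h hM k0 t x
  rw [gp_eq_single k0 n t x hkx]
  split_ifs
  · exact pk_abs_le _ _ _ _ _
  · simp

theorem gp_lip {D : ℝ} (hD : ∀ y, |deriv bmp y| ≤ D) {m M : ℕ} (h : m ≤ M) (hM : 1 ≤ M)
    (k0 n : ℕ) (t x y : ℝ) :
    |gp m M k0 n t x - gp m M k0 n t y| ≤ 2 * (D + 1) * |x - y| := by
  have hD0 : 0 ≤ D := (abs_nonneg _).trans (hD 0)
  obtain ⟨kx, hkx⟩ := pk_one h hM k0 t x
  obtain ⟨ky, hky⟩ := pk_one h hM k0 t y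
  have hL : 0 ≤ (D + 1) * |x - y| := by positivity
  unfold gp
  rw [← Finset.sum_sub_distrib]
  calc |∑ k ∈ Finset.range n, (pk m M (k0 + k) t x - pk m M (k0 + k) t y)|
      ≤ ∑ k ∈ Finset.range n, |pk m M (k0 + k) t x - pk m M (k0 + k) t y| :=
        Finset.abs_sum_le_sum_abs _ _
    _ ≤ ∑ k ∈ Finset.range n, ((if k = kx then (D + 1) * |x - y| else 0)
          + (if k = ky then (D + 1) * |x - y| else 0)) := by
        refine Finset.sum_le_sum fun k _ => ?_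
        have hl := pk_lip hD m M (k0 + k) t x y
        by_cases h1 : k = kx
        · rw [if_pos h1]
          split_ifs <;> linarith
        · by_cases h2 : k = ky
          · rw [if_neg h1, if_pos h2]
            linarith
          · rw [if_neg h1, if_neg h2, hkx k h1, hky k h2]
            simp
    _ ≤ 2 * (D + 1) * |x - y| := by
        rw [Finset.sum_add_distrib, Finset.sum_ite_eq', Finset.sum_ite_eq']
        split_ifs <;> linarith

theorem pk_contDiff (m M k : ℕ) : ContDiff ℝ (⊤ : ℕ∞) (fun p : ℝ × ℝ => pk m M k p.1 p.2) := by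
  have h1 : ContDiff ℝ (⊤ : ℕ∞) (fun p : ℝ × ℝ =>
      bmp ((p.2 + 4 * 4 ^ (M * k)) / 4 ^ (m * k))) :=
    bmp_contDiff.comp ((contDiff_snd.add contDiff_const).div_const _)
  have h2 : ContDiff ℝ (⊤ : ℕ∞) (fun p : ℝ × ℝ => Real.cos (2 ^ k * p.2 + 8 ^ k * p.1)) :=
    Real.contDiff_cos.comp
      ((contDiff_const.mul contDiff_snd).add (contDiff_const.mul contDiff_fst))
  exact (h1.mul h2).div_const _

theorem gp_contDiff (m M k0 n : ℕ) :
    ContDiff ℝ (⊤ : ℕ∞) (fun p : ℝ × ℝ => gp m M k0 n p.1 p.2) := by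
  unfold gp
  exact ContDiff.sum fun k _ => pk_contDiff m M (k0 + k)

theorem gp_eq_ginf {m M : ℕ} (h : m ≤ M) (hM : 1 ≤ M) (k0 : ℕ) (R : ℝ) :
    ∃ n0 : ℕ, ∀ n, n0 ≤ n → ∀ t x, |x| ≤ R → gp m M k0 n t x = ginf m M k0 t x := by
  obtain ⟨n0, hn0⟩ := pow_unbounded_of_one_lt R (by norm_num : (1 : ℝ) < 4)
  refine ⟨n0, fun n hn t x hx => ?_⟩
  unfold gp ginf
  rw [tsum_eq_sum]
  intro k hk
  have hk' : n ≤ k := by
    by_contra hlt
    exact hk (Finset.mem_range.2 (by omega))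
  by_contra hne
  have h1 := (pk_supp h (k0 + k) t x hne).2
  have h2 : n0 ≤ M * (k0 + k) := by
    calc n0 ≤ k0 + k := by omega
      _ = 1 * (k0 + k) := (one_mul _).symm
      _ ≤ M * (k0 + k) := Nat.mul_le_mul_right _ hM
  have h3 : (4 : ℝ) ^ n0 ≤ 4 ^ (M * (k0 + k)) := pow_le_pow_right₀ (by norm_num) h2
  have h4 := (abs_le.1 hx).1
  have h5 : (0 : ℝ) < 4 ^ (M * (k0 + k)) := by positivity
  linarith

theorem gp_contDiff_x (m M k0 n : ℕ) (t : ℝ) :
    ContDiff ℝ (⊤ : ℕ∞) (fun x : ℝ => gp m M k0 n t x) := by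
  have h0 : ContDiff ℝ (⊤ : ℕ∞) (fun x : ℝ => ((t, x) : ℝ × ℝ)) :=
    contDiff_const.prodMk contDiff_id
  have h1 := (gp_contDiff m M k0 n).comp h0
  simpa only [Function.comp_def] using h1

theorem ginf_contDiffAt {m M : ℕ} (h : m ≤ M) (hM : 1 ≤ M) (k0 : ℕ) (t x : ℝ) :
    ContDiffAt ℝ (⊤ : ℕ∞) (fun x => ginf m M k0 t x) x := by
  obtain ⟨n0, hn0⟩ := gp_eq_ginf h hM k0 (|x| + 1)
  have hev : (fun x => ginf m M k0 t x) =ᶠ[𝓝 x] (fun x => gp m M k0 n0 t x) := by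
    filter_upwards [Metric.ball_mem_nhds x one_pos] with y hy
    refine (hn0 n0 le_rfl t y ?_).symm
    rw [Metric.mem_ball, Real.dist_eq] at hy
    have := abs_sub_abs_le_abs_sub y x
    linarith
  exact (gp_contDiff_x m M k0 n0 t).contDiffAt.congr_of_eventuallyEq hev

theorem ginf_contDiff {m M : ℕ} (h : m ≤ M) (hM : 1 ≤ M) (k0 : ℕ) (t : ℝ) :
    ContDiff ℝ (⊤ : ℕ∞) (fun x => ginf m M k0 t x) :=
  contDiff_iff_contDiffAt.2 fun x => ginf_contDiffAt h hM k0 t x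

theorem ginf_continuous {m M : ℕ} (h : m ≤ M) (hM : 1 ≤ M) (k0 : ℕ) :
    Continuous (fun p : ℝ × ℝ => ginf m M k0 p.1 p.2) := by
  rw [continuous_iff_continuousAt]
  rintro ⟨t, x⟩
  obtain ⟨n0, hn0⟩ := gp_eq_ginf h hM k0 (|x| + 1)
  refine ((gp_contDiff m M k0 n0).continuous.continuousAt (x := (t, x))).congr ?_
  filter_upwards [Metric.ball_mem_nhds (t, x) one_pos] with p hp
  refine hn0 n0 le_rfl p.1 p.2 ?_
  rw [Metric.mem_ball, Prod.dist_eq] at hp
  have h2 : dist p.2 x < 1 := lt_of_le_of_lt (le_max_right _ _) hp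
  rw [Real.dist_eq] at h2
  have := abs_sub_abs_le_abs_sub p.2 x
  linarith

theorem thm_GP1 : H_GP1 := by
  refine ⟨⟨bmp_contDiff, bmp_nonneg, bmp_le_one, fun y => bmp_zero, fun y => bmp_one,
    bmp_deriv_bdd⟩, ?_⟩
  intro m M k0 hm hmM
  have hM : 1 ≤ M := hm.trans hmM
  refine ⟨fun k t x => pk_supp hmM k t x, fun j k hjk => gap hM hjk,
    fun n => gp_contDiff m M k0 n, fun t => ginf_contDiff hmM hM k0 t,
    ginf_continuous hmM hM k0, fun R => gp_eq_ginf hmM hM k0 R, ?_⟩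
  obtain ⟨D, hD⟩ := bmp_deriv_bdd
  have hD0 : 0 ≤ D := (abs_nonneg _).trans (hD 0)
  refine ⟨2 * (D + 1), by positivity, fun n t x => ?_, fun n t x y => ?_, fun t x => ?_⟩
  · exact (gp_abs_le hmM hM k0 n t x).trans (by linarith)
  · exact gp_lip hD hmM hM k0 n t x y
  · obtain ⟨n0, hn0⟩ := gp_eq_ginf hmM hM k0 |x|
    rw [← hn0 n0 le_rfl t x le_rfl]
    exact (gp_abs_le hmM hM k0 n0 t x).trans (by linarith)

end Pool.Agent.Helper90.KV.GP
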