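import Pool.Agent.Helper90.KV.GreenD

/-!
Packet KV-GREEN: inversion of `L` on `IsE`.
-/

set_option autoImplicit false

namespace Pool.Agent.Helper90.KV

open Real MeasureTheory Set Filter Topology
open Pool.Agent.Helper41.KV

theorem Lop_of_hasDerivAt {f f1 f2 : ℝ → ℝ} (h1 : ∀ y, HasDerivAt f (f1 y) y)
    (h2 : ∀ y, HasDerivAt f1 (f2 y) y) (y : ℝ) :
    Lop f y = -f2 y + f y - 5 * Q y ^ 4 * f y := by
  have hd1 : deriv f = f1 := funext fun y => (h1 y).deriv
  unfold Lop
  rw [hd1, (h2 y).deriv]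

theorem const_of_hasDerivAt_zero {c : ℝ → ℝ} (h : ∀ y, HasDerivAt c 0 y) (x y : ℝ) : c x = c y :=
  is_const_of_deriv_eq_zero (fun y => (h y).differentiableAt) (fun y => (h y).deriv) x y

theorem isE_hasDerivAt (hE : S_ECL1) {w : ℝ → ℝ} (hw : IsE w) :
    (∀ y, HasDerivAt w (deriv w y) y) ∧ (∀ y, HasDerivAt (deriv w) (deriv (deriv w) y) y) := by
  have h1 := hE.2.2.2.2.2.2.2.2.1 w hw
  exact ⟨fun y => (hw.1.differentiable (by simp)).differentiableAt.hasDerivAt,
    fun y => (h1.1.differentiable (by simp)).differentiableAt.hasDerivAt⟩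

theorem integrable_ph_mul (hQ : S_QF) (hE : S_ECL1) {g : ℝ → ℝ} (hg : IsE g) :
    Integrable fun t => ph t * g t :=
  hE.2.2.2.2.2.2.2.2.2.2.2.2.2.2.2.1 ph g (hE.2.1 _ (hE.1 _ (isE_ph hQ hE))) hg

theorem integral_ph_sq_pos (hQ : S_QF) (hE : S_ECL1) : 0 < ∫ t, ph t * ph t := by
  have hi := integrable_ph_mul hQ hE (isE_ph hQ hE)
  have hc : Continuous fun t => ph t * ph t :=
    (contDiff_ph hQ).continuous.mul (contDiff_ph hQ).continuous
  have h0 : 0 ≤ ∫ t, ph t * ph t := integral_nonneg (fun t => mul_self_nonneg (ph t))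
  rcases h0.lt_or_eq with h | h
  · exact h
  · exfalso
    have h1 := (integral_eq_zero_iff_of_nonneg (fun t => mul_self_nonneg (ph t)) hi).1 h.symm
    have h2 := (Continuous.ae_eq_iff_eq (μ := volume) hc continuous_zero).1 h1
    have h3 := congrFun h2 1
    simp only [Pi.zero_apply, mul_self_eq_zero] at h3
    unfold ph at h3
    rcases mul_eq_zero.1 h3 with h4 | h4
    · exact (Q_pos hQ 1).ne' h4
    · have hs : 0 < Real.sinh (2 * 1) := Real.sinh_pos_iff.2 (by norm_num)
      have hcc : 0 < Real.cosh (2 * 1) := Real.cosh_pos _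
      rw [T_eq] at h4
      exact (div_pos hs hcc).ne' h4

theorem uniq (hQ : S_QF) (hE : S_ECL1) {w : ℝ → ℝ} (hw : IsE w) (hL : ∀ y, Lop w y = 0)
    (hI : ∫ y, w y * deriv Q y = 0) (y : ℝ) : w y = 0 := by
  obtain ⟨hd1, hd2⟩ := isE_hasDerivAt hE hw
  have hdd : ∀ y, deriv (deriv w) y = w y - 5 * Q y ^ 4 * w y := by
    intro y
    have := hL y
    unfold Lop at this
    linarith
  have hc1 : ∀ y, HasDerivAt (fun y => w y * ph1 y - deriv w y * ph y) 0 y := by
    intro y
    have h := ((hd1 y).mul (hasDerivAt_ph1 hQ y)).sub ((hd2 y).mul (hasDerivAt_ph hQ y))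
    refine h.congr_deriv ?_
    rw [hdd y]
    ring
  have hc2 : ∀ y, HasDerivAt (fun y => w y * Z1 y - deriv w y * Z y) 0 y := by
    intro y
    have h := ((hd1 y).mul (hasDerivAt_Z1 hQ y)).sub ((hd2 y).mul (hasDerivAt_Z hQ y))
    refine h.congr_deriv ?_
    rw [hdd y]
    ring
  -- the first constant vanishes
  obtain ⟨M, hM, hb⟩ := bounds hQ
  obtain ⟨C, hC⟩ := hw.2 0 0 one_pos
  obtain ⟨D, hD⟩ := hw.2 1 0 one_pos
  have hC' : ∀ y, |w y| ≤ C := by
    intro y
    have := hC y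
    rw [zero_mul, neg_zero, Real.exp_zero, mul_one, iteratedDeriv_zero] at this
    exact this
  have hD' : ∀ y, |deriv w y| ≤ D := by
    intro y
    have := hD y
    rw [zero_mul, neg_zero, Real.exp_zero, mul_one, iteratedDeriv_one] at this
    exact this
  have hC0 : 0 ≤ C := (abs_nonneg _).trans (hC' 0)
  have hD0 : 0 ≤ D := (abs_nonneg _).trans (hD' 0)
  have hz : w 0 * ph1 0 - deriv w 0 * ph 0 = 0 := by
    have h1 : ∀ y : ℝ, |w 0 * ph1 0 - deriv w 0 * ph 0| ≤ (C + D) * M * Real.exp (-|y|) := by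
      intro y
      have h2 : w 0 * ph1 0 - deriv w 0 * ph 0 = w y * ph1 y - deriv w y * ph y :=
        const_of_hasDerivAt_zero hc1 0 y
      rw [h2]
      have h3 : |w y * ph1 y| ≤ C * (M * Real.exp (-|y|)) := by
        rw [abs_mul]
        exact mul_le_mul (hC' y) (hb y).2.1 (abs_nonneg _) hC0
      have h4 : |deriv w y * ph y| ≤ D * (M * Real.exp (-|y|)) := by
        rw [abs_mul]
        exact mul_le_mul (hD' y) (hb y).1 (abs_nonneg _) hD0
      have h5 := abs_sub (w y * ph1 y) (deriv w y * ph y)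
      calc |w y * ph1 y - deriv w y * ph y| ≤ |w y * ph1 y| + |deriv w y * ph y| := h5
        _ ≤ C * (M * Real.exp (-|y|)) + D * (M * Real.exp (-|y|)) := add_le_add h3 h4
        _ = (C + D) * M * Real.exp (-|y|) := by ring
    have h6 : Tendsto (fun y : ℝ => (C + D) * M * Real.exp (-|y|)) atTop (𝓝 ((C + D) * M * 0)) := by
      refine Tendsto.const_mul _ ?_
      exact Real.tendsto_exp_neg_atTop_nhds_zero.comp tendsto_abs_atTop_atTop
    rw [mul_zero] at h6
    have h7 := ge_of_tendsto' h6 h1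
    exact abs_eq_zero.1 (le_antisymm h7 (abs_nonneg _))
  obtain ⟨c, hc⟩ : ∃ c : ℝ, c = (w 0 * Z1 0 - deriv w 0 * Z 0) / 2 := ⟨_, rfl⟩
  have hwc : ∀ y, w y = c * ph y := by
    intro y
    have h1 : w y * ph1 y - deriv w y * ph y = 0 := by
      rw [← hz]
      exact const_of_hasDerivAt_zero hc1 y 0
    have h2 : w y * Z1 y - deriv w y * Z y = w 0 * Z1 0 - deriv w 0 * Z 0 :=
      const_of_hasDerivAt_zero hc2 y 0
    have h3 := wron hQ y
    have h4 : w y * 2 = (w y * Z1 y - deriv w y * Z y) * ph y -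
        (w y * ph1 y - deriv w y * ph y) * Z y := by
      rw [← h3]
      ring
    rw [h1, h2] at h4
    rw [hc]
    linarith
  have h5 : ∫ y, w y * deriv Q y = -(c * ∫ t, ph t * ph t) := by
    rw [← integral_const_mul, ← integral_neg]
    refine integral_congr_ae (Filter.Eventually.of_forall (fun t => ?_))
    simp only
    rw [hwc t, deriv_Q_eq hQ]
    ring
  rw [h5] at hI
  have h6 : c = 0 := by
    have h7 : c * ∫ t, ph t * ph t = 0 := by linarith
    rcases mul_eq_zero.1 h7 with h | h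
    · exact h
    · exact absurd h (integral_ph_sq_pos hQ hE).ne'
  rw [hwc y, h6, zero_mul]

theorem ph_neg (hQ : S_QF) (y : ℝ) : ph (-y) = -ph y := by
  unfold ph T
  rw [hQ.2.2.1 y, mul_neg, Real.tanh_neg]
  ring

theorem Lop_neg_comp (hQ : S_QF) (hE : S_ECL1) {w : ℝ → ℝ} (hw : IsE w) (y : ℝ) :
    Lop (fun y => w (-y)) y = Lop w (-y) := by
  obtain ⟨hd1, hd2⟩ := isE_hasDerivAt hE hw
  have h1 : ∀ y, HasDerivAt (fun y => w (-y)) (-deriv w (-y)) y := by
    intro y
    have h := (hd1 (-y)).comp y (hasDerivAt_neg y)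
    refine h.congr_deriv ?_
    ring
  have h2 : ∀ y, HasDerivAt (fun y => -deriv w (-y)) (deriv (deriv w) (-y)) y := by
    intro y
    have h := ((hd2 (-y)).comp y (hasDerivAt_neg y)).neg
    refine h.congr_deriv ?_
    ring
  rw [Lop_of_hasDerivAt h1 h2]
  unfold Lop
  rw [hQ.2.2.1 y]

theorem Lop_comb (hE : S_ECL1) {w v : ℝ → ℝ} (hw : IsE w) (hv : IsE v) (a : ℝ) (y : ℝ) :
    Lop (fun y => w y + a * v y) y = Lop w y + a * Lop v y := by
  obtain ⟨hd1, hd2⟩ := isE_hasDerivAt hE hw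
  obtain ⟨hv1, hv2⟩ := isE_hasDerivAt hE hv
  have h1 : ∀ y, HasDerivAt (fun y => w y + a * v y) (deriv w y + a * deriv v y) y :=
    fun y => (hd1 y).add ((hv1 y).const_mul a)
  have h2 : ∀ y, HasDerivAt (fun y => deriv w y + a * deriv v y)
      (deriv (deriv w) y + a * deriv (deriv v) y) y :=
    fun y => (hd2 y).add ((hv2 y).const_mul a)
  rw [Lop_of_hasDerivAt h1 h2]
  unfold Lop
  ring

theorem integral_neg_comp (hQ : S_QF) {w : ℝ → ℝ} (h0 : ∫ y, w y * deriv Q y = 0) :
    ∫ y, w (-y) * deriv Q y = 0 := by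
  have h1 : ∫ y, w (-y) * deriv Q y = ∫ y, -(w (-y) * deriv Q (-y)) := by
    refine integral_congr_ae (Filter.Eventually.of_forall (fun t => ?_))
    simp only
    rw [deriv_Q_eq hQ, deriv_Q_eq hQ, ph_neg hQ]
    ring
  rw [h1, integral_neg, integral_neg_eq_self (fun y => w y * deriv Q y), h0, neg_zero]

theorem symm_of_uniq (hQ : S_QF) (hE : S_ECL1) {w g : ℝ → ℝ} (hw : IsE w)
    (hL : ∀ y, Lop w y = g y) (hI : ∫ y, w y * deriv Q y = 0) (a : ℝ)
    (hg : ∀ y, g (-y) + a * g y = 0) (y : ℝ) : w (-y) + a * w y = 0 := by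
  have hwn : IsE (fun y => w (-y)) := hE.2.2.2.2.2.2.2.2.2.2.2.2.2.2.1 w hw
  have hi1 : Integrable fun y => w (-y) * deriv Q y := by
    have h := (integrable_ph_mul hQ hE hwn).neg
    refine h.congr (Filter.Eventually.of_forall (fun t => ?_))
    simp only [Pi.neg_apply]
    rw [deriv_Q_eq hQ]
    ring
  have hi2 : Integrable fun y => w y * deriv Q y := by
    have h := (integrable_ph_mul hQ hE hw).neg
    refine h.congr (Filter.Eventually.of_forall (fun t => ?_))
    simp only [Pi.neg_apply]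
    rw [deriv_Q_eq hQ]
    ring
  refine uniq hQ hE (w := fun y => w (-y) + a * w y) ?_ ?_ ?_ y
  · exact hE.2.2.1 _ _ hwn (isE_const_mul hE a hw)
  · intro y
    rw [Lop_comb hE hwn hw, Lop_neg_comp hQ hE hw, hL, hL]
    exact hg y
  · have h1 : (fun y => (w (-y) + a * w y) * deriv Q y) =
        fun y => w (-y) * deriv Q y + a * (w y * deriv Q y) := by
      funext y
      ring
    rw [h1, integral_add hi1 (hi2.const_mul a), integral_const_mul, hI, integral_neg_comp hQ hI]
    ring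

end Pool.Agent.Helper90.KV

namespace Pool.Agent.Helper41.KV

open Real MeasureTheory Set Filter Topology
open Pool.Agent.Helper90.KV

theorem thm_GREEN (hQ : S_QF) (hE : S_ECL1) : S_GREEN := by
  refine ⟨fun g hg hg0 => ?_, fun w hw hL hI => uniq hQ hE hw hL hI⟩
  have hp := isE_ph hQ hE
  have h0 : ∫ t, ph t * g t = 0 := by
    have h1 : ∫ y, g y * deriv Q y = ∫ t, -(ph t * g t) := by
      refine integral_congr_ae (Filter.Eventually.of_forall (fun t => ?_))
      simp only
      rw [deriv_Q_eq hQ]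
      ring
    rw [h1, integral_neg] at hg0
    linarith
  have hi := integrable_ph_mul hQ hE hg
  have hw0 := isE_w0 hQ hE hg h0
  have hpos := integral_ph_sq_pos hQ hE
  obtain ⟨β, hβ⟩ : ∃ β : ℝ, β = -(∫ t, ph t * w0 g t) / ∫ t, ph t * ph t := ⟨_, rfl⟩
  have hiw := integrable_ph_mul hQ hE hw0
  have hip := integrable_ph_mul hQ hE hp
  have hw : IsE (fun y => w0 g y + β * ph y) := hE.2.2.1 _ _ hw0 (isE_const_mul hE β hp)
  have hLph : ∀ y, Lop ph y = 0 := by
    intro y
    rw [Lop_of_hasDerivAt (hasDerivAt_ph hQ) (hasDerivAt_ph1 hQ)]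
    ring
  have hL0 : ∀ y, Lop (w0 g) y = g y := by
    intro y
    rw [Lop_of_hasDerivAt (hasDerivAt_w0 hQ hg.1.continuous hi)
      (hasDerivAt_w01 hQ hg.1.continuous hi)]
    ring
  have hL : ∀ y, Lop (fun y => w0 g y + β * ph y) y = g y := by
    intro y
    rw [Lop_comb hE hw0 hp, hL0, hLph]
    ring
  have hI : ∫ y, (w0 g y + β * ph y) * deriv Q y = 0 := by
    have h1 : (fun y => (w0 g y + β * ph y) * deriv Q y) =
        fun y => -(ph y * w0 g y) + -(β * (ph y * ph y)) := by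
      funext y
      rw [deriv_Q_eq hQ]
      ring
    have h2 : ∫ y, (-(ph y * w0 g y) + -(β * (ph y * ph y))) =
        (∫ y, -(ph y * w0 g y)) + ∫ y, -(β * (ph y * ph y)) :=
      integral_add hiw.neg (hip.const_mul β).neg
    have h3 : β * ∫ t, ph t * ph t = -(∫ t, ph t * w0 g t) := by
      rw [hβ]
      exact div_mul_cancel₀ _ hpos.ne'
    rw [h1, h2, integral_neg, integral_neg, integral_const_mul, h3]
    ring
  refine ⟨fun y => w0 g y + β * ph y, hw, hL, hI, fun hge y => ?_, fun hgo y => ?_⟩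
  · have := symm_of_uniq hQ hE hw hL hI (-1) (fun y => by rw [hge y]; ring) y
    simp only at this ⊢
    linarith
  · have := symm_of_uniq hQ hE hw hL hI 1 (fun y => by rw [hgo y]; ring) y
    simp only at this ⊢
    linarith

end Pool.Agent.Helper41.KV
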