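import Pool.Agent.Helper41.KV.GoalsD

/-!
Packet KV-INNR: the right field near the soliton in inner variables.
-/

set_option autoImplicit false

namespace Pool.Agent.Helper90.KV

open Real MeasureTheory Pool.Agent.Helper41.KV Pool.Agent.Helper33.KV

theorem thm_INNR (hX : S_EXPL) (hC : S_CURV) (hP : S_PHI) : S_INNR := by
  intro α h0 h1 h2 h3 p J n hα hα1 hA t y ht hs hz
  obtain ⟨hs0, hl0, hr0, hlsr, -, hlt, -⟩ := (hC α hα hα1).1 t ht
  obtain ⟨hz1, hz2⟩ := abs_le.1 hz
  set s := sig α t with hsdef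
  set r := rho α t with hrdef
  set z := r * y with hzdef
  set x := s + lam α t * y with hxdef
  have hx : x = s * (1 + z) := by
    rw [hxdef, hlsr, hzdef]; ring
  have h1z : 0 < 1 + z := by linarith
  have hx0 : 0 < x := by rw [hx]; exact mul_pos hs0 h1z
  have hx1 : x < 1 / 2 := by
    rw [hx]
    nlinarith
  have h4 : (0 : ℝ) < 4 * α + 3 := by linarith
  have hr : r = s ^ (2 * α) := rfl
  -- the four substitutions
  have e0 : Real.sqrt (lam α t) * x ^ (α - 1/2) = r * h0 z := by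
    have hl : lam α t = s ^ (2 * α + 1) := rfl
    rw [hl, Real.sqrt_eq_rpow, ← Real.rpow_mul hs0.le, hx, Real.mul_rpow hs0.le h1z.le,
      hA.e0 z hz, ← mul_assoc, ← Real.rpow_add hs0, hr]
    congr 2
    ring
  have e1 : t / x ^ 3 = r ^ 2 * h1 z / (4 * α + 3) := by
    have ht' : t = r ^ 2 * s ^ 3 / (4 * α + 3) := by
      rw [eq_div_iff h4.ne']
      rw [hlsr] at hlt
      linarith
    have hz3 : h1 z = ((1 + z) ^ 3)⁻¹ := by
      rw [hA.e1 z hz, Real.rpow_neg h1z.le]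
      norm_num
    rw [hz3, hx, mul_pow]
    rw [ht']
    field_simp
  have e2 : x ^ (2 * α) = r * h2 z := by
    rw [hx, Real.mul_rpow hs0.le h1z.le, hA.e2 z hz, hr]
  have e3 : Real.log x = Real.log s + h3 z := by
    rw [hx, Real.log_mul hs0.ne' h1z.ne', hA.e3 z hz]
  -- left side
  unfold FR
  rw [Finset.mul_sum]
  unfold Fh
  have hdeg : ((Phi α (gZero p J) n).map
      (MvPolynomial.eval ![r * h2 (r * y), Real.log s + h3 (r * y)])).natDegree < n + 1 :=
    lt_of_le_of_lt Polynomial.natDegree_map_le (Nat.lt_succ_of_le (hP.1 α (gZero p J) n))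
  rw [Polynomial.eval_eq_sum_range' hdeg, Finset.mul_sum]
  refine Finset.sum_congr rfl fun i _ => ?_
  rw [hX α p J n i x hα hα1 hx0 hx1, Polynomial.coeff_map, e2, e3]
  have e5 : x ^ (α - 1/2 - 3 * (i : ℝ)) = x ^ (α - 1/2) / (x ^ 3) ^ i := by
    rw [Real.rpow_sub hx0, Real.rpow_mul_natCast hx0.le]
    norm_num
  have e6 : (r ^ 2 * h1 z / (4 * α + 3)) ^ i = t ^ i / (x ^ 3) ^ i := by
    rw [← e1, div_pow]
  rw [e5, ← hzdef, e6, ← e0]
  have hx3 : (x ^ 3) ^ i ≠ 0 := by positivity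
  field_simp

end Pool.Agent.Helper90.KV
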