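import Pool.Agent.Helper41.KV.GoalsD

/-!
Packet KV-ISS: closure of the class `IsS`.
-/

set_option autoImplicit false

namespace Pool.Agent.Helper90.KV.SS

open Real MeasureTheory Set Filter Topology
open Pool.Agent.Helper41.KV

theorem IsS.cda {γ : ℝ} {φ : ℝ → ℝ} (h : IsS γ φ) {x : ℝ} (hx : 0 < x) (k : ℕ) :
    ContDiffAt ℝ k φ x :=
  ((h.1.contDiffAt (Ioi_mem_nhds hx)).of_le (by exact_mod_cast le_top))

/-- nonnegative constants -/
theorem IsS.bd {γ : ℝ} {φ : ℝ → ℝ} (h : IsS γ φ) (k : ℕ) :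
    ∃ C : ℝ, 0 ≤ C ∧ ∀ x : ℝ, 0 < x → |iteratedDeriv k φ x| ≤ C * x ^ (γ - k) := by
  obtain ⟨C, hC⟩ := h.2.2.2 k
  refine ⟨|C|, abs_nonneg _, fun x hx => (hC x hx).trans ?_⟩
  exact mul_le_mul_of_nonneg_right (le_abs_self C) (Real.rpow_nonneg hx.le _)

theorem iter_zero_of_gt {φ : ℝ → ℝ} (h : ∀ x, 1 ≤ x → φ x = 0) (k : ℕ) {x : ℝ} (hx : 1 < x) :
    iteratedDeriv k φ x = 0 := by
  have h1 : φ =ᶠ[𝓝 x] (fun _ => (0 : ℝ)) := by
    filter_upwards [Ioi_mem_nhds hx] with y hy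
    exact h y (le_of_lt hy)
  rw [(h1.iteratedDeriv k).eq_of_nhds]
  exact iteratedDeriv_fun_const_zero

theorem deriv_zero_of_left {φ : ℝ → ℝ} {a : ℝ} (h : ∀ x, x ≤ a → φ x = 0) {x : ℝ} (hx : x ≤ a) :
    deriv φ x = 0 := by
  by_cases hd : DifferentiableAt ℝ φ x
  · have h1 : HasDerivWithinAt φ (deriv φ x) (Iic x) x := hd.hasDerivAt.hasDerivWithinAt
    have h2 : HasDerivWithinAt φ 0 (Iic x) x := by
      have h3 : HasDerivWithinAt (fun _ : ℝ => (0 : ℝ)) 0 (Iic x) x := hasDerivWithinAt_const _ _ _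
      exact h3.congr (fun y hy => h y (le_trans hy hx)) (h x hx)
    exact (uniqueDiffWithinAt_Iic x).eq_deriv _ h1 h2
  · exact deriv_zero_of_not_differentiableAt hd

theorem deriv_zero_of_right {φ : ℝ → ℝ} {a : ℝ} (h : ∀ x, a ≤ x → φ x = 0) {x : ℝ} (hx : a ≤ x) :
    deriv φ x = 0 := by
  by_cases hd : DifferentiableAt ℝ φ x
  · have h1 : HasDerivWithinAt φ (deriv φ x) (Ici x) x := hd.hasDerivAt.hasDerivWithinAt
    have h2 : HasDerivWithinAt φ 0 (Ici x) x := by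
      have h3 : HasDerivWithinAt (fun _ : ℝ => (0 : ℝ)) 0 (Ici x) x := hasDerivWithinAt_const _ _ _
      exact h3.congr (fun y hy => h y (le_trans hx hy)) (h x hx)
    exact (uniqueDiffWithinAt_Ici x).eq_deriv _ h1 h2
  · exact deriv_zero_of_not_differentiableAt hd

theorem iss_mono {γ γ' : ℝ} {φ : ℝ → ℝ} (hγ : γ' ≤ γ) (h : IsS γ φ) : IsS γ' φ := by
  refine ⟨h.1, h.2.1, h.2.2.1, fun k => ?_⟩
  obtain ⟨C, hC0, hC⟩ := IsS.bd h k
  refine ⟨C, fun x hx => ?_⟩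
  rcases le_or_gt x 1 with hx1 | hx1
  · refine (hC x hx).trans (mul_le_mul_of_nonneg_left ?_ hC0)
    exact Real.rpow_le_rpow_of_exponent_ge hx hx1 (by linarith)
  · rw [iter_zero_of_gt h.2.2.1 k hx1, abs_zero]
    exact mul_nonneg hC0 (Real.rpow_nonneg hx.le _)

theorem iss_add {γ : ℝ} {φ ψ : ℝ → ℝ} (h : IsS γ φ) (h' : IsS γ ψ) :
    IsS γ (fun x => φ x + ψ x) := by
  refine ⟨h.1.add h'.1, fun x hx => by simp only [h.2.1 x hx, h'.2.1 x hx, add_zero],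
    fun x hx => by simp only [h.2.2.1 x hx, h'.2.2.1 x hx, add_zero], fun k => ?_⟩
  obtain ⟨C, hC0, hC⟩ := IsS.bd h k
  obtain ⟨C', hC0', hC'⟩ := IsS.bd h' k
  refine ⟨C + C', fun x hx => ?_⟩
  rw [iteratedDeriv_fun_add (IsS.cda h hx k) (IsS.cda h' hx k), add_mul]
  exact (abs_add_le _ _).trans (add_le_add (hC x hx) (hC' x hx))

theorem iss_smul {γ : ℝ} {φ : ℝ → ℝ} (c : ℝ) (h : IsS γ φ) : IsS γ (fun x => c * φ x) := by
  refine ⟨contDiffOn_const.mul h.1, fun x hx => by simp only [h.2.1 x hx, mul_zero],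
    fun x hx => by simp only [h.2.2.1 x hx, mul_zero], fun k => ?_⟩
  obtain ⟨C, hC0, hC⟩ := IsS.bd h k
  refine ⟨|c| * C, fun x hx => ?_⟩
  rw [iteratedDeriv_const_mul c (IsS.cda h hx k), abs_mul, mul_assoc]
  exact mul_le_mul_of_nonneg_left (hC x hx) (abs_nonneg c)

theorem iss_mul {γ γ' : ℝ} {φ ψ : ℝ → ℝ} (h : IsS γ φ) (h' : IsS γ' ψ) :
    IsS (γ + γ') (fun x => φ x * ψ x) := by
  refine ⟨h.1.mul h'.1, fun x hx => by simp only [h.2.1 x hx, zero_mul],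
    fun x hx => by simp only [h.2.2.1 x hx, zero_mul], fun k => ?_⟩
  choose C hC0 hC using IsS.bd h
  choose C' hC0' hC' using IsS.bd h'
  refine ⟨∑ i ∈ Finset.range (k + 1), (k.choose i : ℝ) * C i * C' (k - i), fun x hx => ?_⟩
  rw [iteratedDeriv_fun_mul (IsS.cda h hx k) (IsS.cda h' hx k), Finset.sum_mul]
  refine (Finset.abs_sum_le_sum_abs _ _).trans (Finset.sum_le_sum fun i hi => ?_)
  have hik : i ≤ k := by
    have := Finset.mem_range.1 hi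
    omega
  rw [abs_mul, abs_mul, Nat.abs_cast]
  have e1 : x ^ (γ + γ' - k) = x ^ (γ - i) * x ^ (γ' - ((k - i : ℕ) : ℝ)) := by
    rw [← Real.rpow_add hx, Nat.cast_sub hik]
    congr 1
    ring
  rw [e1]
  calc (k.choose i : ℝ) * |iteratedDeriv i φ x| * |iteratedDeriv (k - i) ψ x|
      ≤ (k.choose i : ℝ) * (C i * x ^ (γ - i)) * (C' (k - i) * x ^ (γ' - ((k - i : ℕ) : ℝ))) := by
        refine mul_le_mul (mul_le_mul_of_nonneg_left (hC i x hx) (Nat.cast_nonneg _))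
          (hC' (k - i) x hx) (abs_nonneg _) ?_
        exact mul_nonneg (Nat.cast_nonneg _)
          (mul_nonneg (hC0 i) (Real.rpow_nonneg hx.le _))
    _ = (k.choose i : ℝ) * C i * C' (k - i) * (x ^ (γ - i) * x ^ (γ' - ((k - i : ℕ) : ℝ))) := by
        ring

theorem iss_deriv {γ : ℝ} {φ : ℝ → ℝ} (h : IsS γ φ) : IsS (γ - 1) (deriv φ) := by
  refine ⟨?_, fun x hx => deriv_zero_of_left h.2.1 hx, fun x hx => deriv_zero_of_right h.2.2.1 hx,
    fun k => ?_⟩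
  · exact h.1.deriv_of_isOpen isOpen_Ioi (by simp)
  · obtain ⟨C, hC0, hC⟩ := IsS.bd h (k + 1)
    refine ⟨C, fun x hx => ?_⟩
    have h1 := hC x hx
    rw [iteratedDeriv_succ'] at h1
    have e1 : γ - 1 - (k : ℝ) = γ - ((k + 1 : ℕ) : ℝ) := by
      push_cast
      ring
    rw [e1]
    exact h1

theorem thm_ISS : S_ISS := by
  refine ⟨fun γ γ' φ hγ h => iss_mono hγ h, fun γ φ ψ h h' => iss_add h h',
    fun γ φ c h => iss_smul c h, fun γ γ' φ ψ h h' => iss_mul h h', fun γ φ h => iss_deriv h,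
    fun γ φ h => ?_, fun γ => ?_⟩
  · have h1 := iss_deriv (iss_deriv (iss_deriv h))
    have e1 : iteratedDeriv 3 φ = deriv (deriv (deriv φ)) := by
      rw [iteratedDeriv_eq_iterate]
      rfl
    have e2 : γ - 1 - 1 - 1 = γ - 3 := by ring
    rw [e1, ← e2]
    exact h1
  · refine ⟨contDiffOn_const, fun _ _ => rfl, fun _ _ => rfl, fun k => ⟨0, fun x hx => ?_⟩⟩
    rw [iteratedDeriv_fun_const_zero]
    simp

end Pool.Agent.Helper90.KV.SS
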