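import Pool.Agent.Helper41.KV.GoalsC
import Pool.Agent.Helper56.KV.SOLVEP
import Pool.Agent.Helper38.KV.PR

/-!
Packet KV-LSOLVE: solving coefficientwise in `ℓ`.
-/

set_option autoImplicit false

namespace Pool.Agent.Helper90.KV

open Real MeasureTheory Set Filter Topology
open Pool.Agent.Helper41.KV

theorem Lop_eq_of_hasDerivAt' {f f1 f2 : ℝ → ℝ} (h1 : ∀ y, HasDerivAt f (f1 y) y)
    (h2 : ∀ y, HasDerivAt f1 (f2 y) y) (y : ℝ) :
    Lop f y = -f2 y + f y - 5 * Q y ^ 4 * f y := by
  have hd1 : deriv f = f1 := funext fun y => (h1 y).deriv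
  unfold Lop
  rw [hd1, (h2 y).deriv]

theorem isT_zero (hE : S_ECL1) : IsT (fun _ => 0) := by
  refine ⟨0, ?_⟩
  unfold HasTail
  have h : (fun y : ℝ => (0 : ℝ) - (0 : Polynomial ℝ).eval y * chiM y)
      = fun y : ℝ => (0 : ℝ) * (1 / (Real.cosh (2 * y)) ^ 2) := by
    funext y; simp
  rw [h]
  exact Helper38.KV.E_smul hE 0 hE.2.2.2.2.2.2.2.2.2.2.2.2.2.1

theorem isT_add (hE : S_ECL1) {a b : ℝ → ℝ} (ha : IsT a) (hb : IsT b) :
    IsT (fun y => a y + b y) := by
  obtain ⟨p, hp⟩ := ha
  obtain ⟨q, hq⟩ := hb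
  refine ⟨p + q, ?_⟩
  have h := Helper38.KV.E_add hE hp hq
  unfold HasTail
  have he : (fun y : ℝ => a y + b y - (p + q).eval y * chiM y)
      = fun y : ℝ => (a y - p.eval y * chiM y) + (b y - q.eval y * chiM y) := by
    funext y; rw [Polynomial.eval_add]; ring
  rw [he]
  exact h

theorem isT_smul (hE : S_ECL1) (c : ℝ) {a : ℝ → ℝ} (ha : IsT a) :
    IsT (fun y => c * a y) := by
  obtain ⟨p, hp⟩ := ha
  refine ⟨Polynomial.C c * p, ?_⟩
  have h := Helper38.KV.E_smul hE c hp
  unfold HasTail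
  have he : (fun y : ℝ => c * a y - (Polynomial.C c * p).eval y * chiM y)
      = fun y : ℝ => c * (a y - p.eval y * chiM y) := by
    funext y; rw [Polynomial.eval_mul, Polynomial.eval_C]; ring
  rw [he]
  exact h

theorem isP_of_isT (hE : S_ECL1) {a : ℝ → ℝ} (ha : IsT a) : IsP a := by
  obtain ⟨p, hp⟩ := ha
  have h := Helper38.KV.P_add hE (Helper38.KV.E_P hE hp)
    (Helper38.KV.P_mul hE (Helper38.KV.P_poly hE p) (Helper38.KV.P_chiM hE))
  have he : (fun y : ℝ => (a y - p.eval y * chiM y) + p.eval y * chiM y) = a := by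
    funext y; ring
  rw [he] at h
  exact h

theorem integrable_isT_Q (hQ : S_QF) (hE : S_ECL1) {a : ℝ → ℝ} (ha : IsT a) :
    Integrable (fun y => a y * Q y) :=
  Helper38.KV.E_int hE (Helper38.KV.PE_mul hE (isP_of_isT hE ha) (Helper38.KV.isE_Q hQ))

/-- Every element of `LT` is a finite sum `∑ l^n a_n(y)`. -/
theorem LT_decomp (hE : S_ECL1) {e : ℝ → ℝ → ℝ} (he : e ∈ Helper41.KV.LT) :
    ∃ (N : ℕ) (a : ℕ → ℝ → ℝ), (∀ n, IsT (a n)) ∧
      ∀ M, N ≤ M → ∀ l y, e l y = ∑ n ∈ Finset.range M, l ^ n * a n y := by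
  unfold Helper41.KV.LT at he
  induction he using Submodule.span_induction with
  | mem e h =>
    obtain ⟨n, a, ha, rfl⟩ := h
    refine ⟨n + 1, fun k => if k = n then a else fun _ => 0, ?_, ?_⟩
    · intro k
      by_cases hk : k = n
      · simp only [hk, if_true]
        exact ha
      · simp only [hk, if_false]
        exact isT_zero hE
    · intro M hM l y
      rw [Finset.sum_eq_single n]
      · simp
      · intro k _ hk
        simp [hk]
      · intro h
        exact absurd (Finset.mem_range.2 (by omega)) h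
  | zero =>
    refine ⟨0, fun _ _ => 0, fun _ => isT_zero hE, ?_⟩
    intro M _ l y
    simp
  | add e e' _ _ h h' =>
    obtain ⟨N, a, ha, hN⟩ := h
    obtain ⟨N', a', ha', hN'⟩ := h'
    refine ⟨max N N', fun n y => a n y + a' n y, fun n => isT_add hE (ha n) (ha' n), ?_⟩
    intro M hM l y
    rw [Pi.add_apply, Pi.add_apply, hN M (le_trans (le_max_left _ _) hM),
      hN' M (le_trans (le_max_right _ _) hM), ← Finset.sum_add_distrib]
    exact Finset.sum_congr rfl fun n _ => by ring
  | smul c e _ h =>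
    obtain ⟨N, a, ha, hN⟩ := h
    refine ⟨N, fun n y => c * a n y, fun n => isT_smul hE c (ha n), ?_⟩
    intro M hM l y
    rw [Pi.smul_apply, Pi.smul_apply, hN M hM, smul_eq_mul, Finset.mul_sum]
    exact Finset.sum_congr rfl fun n _ => by ring

theorem sum_mem_LT {N : ℕ} {w : ℕ → ℝ → ℝ} (hw : ∀ n, IsT (w n)) :
    (fun l y => ∑ n ∈ Finset.range N, l ^ n * w n y) ∈ Helper41.KV.LT := by
  have he : (fun (l y : ℝ) => ∑ n ∈ Finset.range N, l ^ n * w n y)
      = ∑ n ∈ Finset.range N, (fun (l y : ℝ) => l ^ n * w n y) := by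
    funext l y
    rw [Finset.sum_apply, Finset.sum_apply]
  rw [he]
  refine Submodule.sum_mem _ fun n _ => ?_
  exact Submodule.subset_span ⟨n, w n, hw n, rfl⟩

theorem integral_decomp (hQ : S_QF) (hE : S_ECL1) {N : ℕ} {a : ℕ → ℝ → ℝ}
    (ha : ∀ n, IsT (a n)) (l : ℝ) :
    (∫ y, (∑ n ∈ Finset.range N, l ^ n * a n y) * Q y)
      = (∑ n ∈ Finset.range N, Polynomial.C (∫ y, a n y * Q y) * Polynomial.X ^ n).eval l := by
  have h1 : (fun y => (∑ n ∈ Finset.range N, l ^ n * a n y) * Q y)
      = fun y => ∑ n ∈ Finset.range N, l ^ n * (a n y * Q y) := by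
    funext y
    rw [Finset.sum_mul]
    exact Finset.sum_congr rfl fun n _ => by ring
  rw [h1, integral_finsetSum _ (fun n _ => (integrable_isT_Q hQ hE (ha n)).const_mul (l ^ n)),
    Polynomial.eval_finsetSum]
  refine Finset.sum_congr rfl fun n _ => ?_
  rw [integral_const_mul, Polynomial.eval_mul, Polynomial.eval_C, Polynomial.eval_pow,
    Polynomial.eval_X, mul_comm]

theorem poly_scalar (c : ℝ) (g : Polynomial ℝ) :
    ∃ q : Polynomial ℝ, Polynomial.derivative q + Polynomial.C c * q = g := by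
  by_cases hc : c = 0
  · obtain ⟨P, hP⟩ := Helper56.KV.exists_prim g
    exact ⟨P, by rw [hP, hc]; simp⟩
  · have key : ∀ D : ℕ, ∃ q : Polynomial ℝ, Polynomial.derivative q + Polynomial.C c * q
        = g - Polynomial.C ((-1) ^ D * (c⁻¹) ^ D) * Polynomial.derivative^[D] g := by
      intro D
      induction D with
      | zero => exact ⟨0, by simp⟩
      | succ D ih =>
        obtain ⟨q, hq⟩ := ih
        refine ⟨q + Polynomial.C ((-1) ^ D * (c⁻¹) ^ (D + 1)) * Polynomial.derivative^[D] g, ?_⟩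
        have h1 : Polynomial.C c * (Polynomial.C ((-1) ^ D * (c⁻¹) ^ (D + 1)) *
            Polynomial.derivative^[D] g)
            = Polynomial.C ((-1) ^ D * (c⁻¹) ^ D) * Polynomial.derivative^[D] g := by
          rw [← mul_assoc, ← Polynomial.C_mul]
          congr 2
          rw [pow_succ]
          field_simp
        have h2 : Polynomial.C ((-1 : ℝ) ^ (D + 1) * (c⁻¹) ^ (D + 1))
            = - Polynomial.C ((-1) ^ D * (c⁻¹) ^ (D + 1)) := by
          rw [← Polynomial.C_neg]
          congr 1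
          rw [pow_succ (-1 : ℝ)]
          ring
        rw [Polynomial.derivative_add, Polynomial.derivative_C_mul, mul_add, h1, h2,
          Function.iterate_succ_apply']
        linear_combination hq
    obtain ⟨q, hq⟩ := key (g.natDegree + 1)
    refine ⟨q, ?_⟩
    rw [hq, Polynomial.iterate_derivative_eq_zero (Nat.lt_succ_self _)]
    simp

theorem poly_scalar_unique (c : ℝ) (q : Polynomial ℝ) (a : ℝ) (hc : c ≠ 0)
    (h : Polynomial.derivative q + Polynomial.C c * q = Polynomial.C a) :
    q = Polynomial.C (a / c) := by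
  set r := q - Polynomial.C (a / c) with hr
  have hr0 : Polynomial.derivative r + Polynomial.C c * r = 0 := by
    rw [hr, Polynomial.derivative_sub, Polynomial.derivative_C, mul_sub, ← Polynomial.C_mul,
      mul_div_cancel₀ a hc]
    linear_combination h
  have hz : r = 0 := by
    by_contra hne
    have h1 : Polynomial.degree (Polynomial.derivative r) < Polynomial.degree r :=
      Polynomial.degree_derivative_lt hne
    have h2 : Polynomial.derivative r = -(Polynomial.C c * r) := by
      linear_combination hr0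
    rw [h2, Polynomial.degree_neg, Polynomial.degree_C_mul hc] at h1
    exact lt_irrefl _ h1
  exact sub_eq_zero.1 hz

theorem thm_LSOLVE (hQ : S_QF) (hE : S_ECL1) (_hE2 : S_ECL2) (hS : S_SOLVEP) : S_LSOLVE := by
  refine ⟨?_, ?_, poly_scalar, poly_scalar_unique⟩
  · intro e he h0
    obtain ⟨N, a, ha, hN⟩ := LT_decomp hE he
    have hN' := hN N le_rfl
    have hp : (∑ n ∈ Finset.range N, Polynomial.C (∫ y, a n y * Q y) * Polynomial.X ^ n) = 0 := by
      apply Polynomial.funext
      intro l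
      rw [← integral_decomp hQ hE ha l, Polynomial.eval_zero, ← h0 l]
      congr 1
      funext y
      rw [hN' l y]
    have hint : ∀ n, n < N → (∫ y, a n y * Q y) = 0 := by
      intro n hn
      have h1 := congrArg (fun p => Polynomial.coeff p n) hp
      simp only [Polynomial.finsetSum_coeff, Polynomial.coeff_C_mul, Polynomial.coeff_X_pow,
        Polynomial.coeff_zero] at h1
      rw [Finset.sum_eq_single n] at h1
      · simpa using h1
      · intro k _ hk
        rw [if_neg (fun h => hk h.symm), mul_zero]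
      · intro h
        exact absurd (Finset.mem_range.2 hn) h
    have hsol : ∀ n, ∃ w : ℝ → ℝ, IsT w ∧ (n < N → ∀ y, HasDerivAt (Lop w) (a n y) y) := by
      intro n
      by_cases hn : n < N
      · obtain ⟨p, hp⟩ := ha n
        obtain ⟨q, P1, w, hw, hd, -⟩ := hS p (a n) hp (hint n hn)
        exact ⟨w, ⟨q, hw⟩, fun _ => hd⟩
      · exact ⟨fun _ => 0, isT_zero hE, fun h => absurd h hn⟩
    choose w hwT hwd using hsol
    refine ⟨fun l y => ∑ n ∈ Finset.range N, l ^ n * w n y, sum_mem_LT hwT, ?_⟩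
    intro l y
    have hP : ∀ n, IsP (w n) := fun n => isP_of_isT hE (hwT n)
    have hL : ∀ y', Lop (fun y => ∑ n ∈ Finset.range N, l ^ n * w n y) y'
        = ∑ n ∈ Finset.range N, l ^ n * Lop (w n) y' := by
      intro y'
      have h1 : ∀ y, HasDerivAt (fun y : ℝ => ∑ n ∈ Finset.range N, l ^ n * w n y)
          (∑ n ∈ Finset.range N, l ^ n * deriv (w n) y) y := fun y =>
        HasDerivAt.fun_sum fun n _ => (Helper38.KV.P_diff (hP n) y).const_mul (l ^ n)
      have h2 : ∀ y, HasDerivAt (fun y : ℝ => ∑ n ∈ Finset.range N, l ^ n * deriv (w n) y)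
          (∑ n ∈ Finset.range N, l ^ n * deriv (deriv (w n)) y) y := fun y =>
        HasDerivAt.fun_sum fun n _ =>
          (Helper38.KV.P_diff (Helper38.KV.P_deriv hE (hP n)) y).const_mul (l ^ n)
      rw [Lop_eq_of_hasDerivAt' h1 h2 y', ← Finset.sum_neg_distrib, ← Finset.sum_add_distrib,
        Finset.mul_sum, ← Finset.sum_sub_distrib]
      refine Finset.sum_congr rfl fun n _ => ?_
      unfold Lop
      ring
    have hfun : (fun y' => Lop ((fun l y => ∑ n ∈ Finset.range N, l ^ n * w n y) l) y')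
        = fun y' => ∑ n ∈ Finset.range N, l ^ n * Lop (w n) y' := funext hL
    rw [hfun, hN' l y]
    have hd : HasDerivAt (fun y' : ℝ => ∑ n ∈ Finset.range N, l ^ n * Lop (w n) y')
        (∑ n ∈ Finset.range N, l ^ n * a n y) y :=
      HasDerivAt.fun_sum fun n hn => (hwd n (Finset.mem_range.1 hn) y).const_mul (l ^ n)
    exact hd.deriv
  · intro e he
    obtain ⟨N, a, ha, hN⟩ := LT_decomp hE he
    refine ⟨∑ n ∈ Finset.range N, Polynomial.C (∫ y, a n y * Q y) * Polynomial.X ^ n, ?_⟩
    intro l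
    rw [← integral_decomp hQ hE ha l]
    congr 1
    funext y
    rw [hN N le_rfl l y]

end Pool.Agent.Helper90.KV
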