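import Pool.Agent.Helper48.KV.GoalsJ

/-!
# PROJECT KV (MP_66be51_an), packet LAM: a discrete inequality.
-/

noncomputable section

namespace Pool.Agent.Helper90.KV

open Pool.Agent.Helper48.KV Finset

/-- Geometric sum with ratio `2^{-5}`. -/
theorem lam_geom (a d : ℕ) :
    (∑ j ∈ Finset.Ico a (a + d), (1 : ℝ) / 2 ^ (5 * j)) ≤ 2 / 2 ^ (5 * a) - 2 / 2 ^ (5 * (a + d)) := by
  induction d with
  | zero => simp
  | succ d ih =>
    rw [← Nat.add_assoc, Finset.sum_Ico_succ_top (by omega)]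
    have h1 : (2 : ℝ) / 2 ^ (5 * (a + d + 1)) = (1 / 16) * (1 / 2 ^ (5 * (a + d))) := by
      have h2 : (2 : ℝ) ^ (5 * (a + d + 1)) = 2 ^ (5 * (a + d)) * 32 := by
        rw [show 5 * (a + d + 1) = 5 * (a + d) + 5 by ring, pow_add]
        norm_num
      rw [h2]
      have h3 : (0 : ℝ) < 2 ^ (5 * (a + d)) := by positivity
      field_simp
      norm_num
    have h4 : (0 : ℝ) < 1 / 2 ^ (5 * (a + d)) := by positivity
    have h5 : (2 : ℝ) / 2 ^ (5 * (a + d)) = 2 * (1 / 2 ^ (5 * (a + d))) := by ring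
    rw [h5] at ih
    rw [h1]
    linarith

theorem lam_geom' (a b : ℕ) :
    (∑ j ∈ Finset.Ico a b, (1 : ℝ) / 2 ^ (5 * j)) ≤ 2 / 2 ^ (5 * a) := by
  rcases Nat.lt_or_ge a b with h | h
  · obtain ⟨d, rfl⟩ := Nat.exists_eq_add_of_le h.le
    have h1 := lam_geom a d
    have h2 : (0 : ℝ) < 2 / 2 ^ (5 * (a + d)) := by positivity
    linarith
  · rw [Finset.Ico_eq_empty (by omega)]
    simp only [Finset.sum_empty]
    positivity

theorem lam_pow {x : ℝ} (hx : 0 ≤ x) : (x ^ 4) ^ ((3 : ℝ) / 4) = x ^ 3 := by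
  rw [← Real.rpow_natCast, ← Real.rpow_natCast, ← Real.rpow_mul hx]
  norm_num

theorem lam' : S_LAM := by
  intro C hC
  refine ⟨(8 * C) ^ 4 + 2 * C, by positivity, ?_⟩
  intro k0 n b hb hyp k hk
  obtain ⟨m, hm, hmax⟩ := Finset.exists_max_image (Finset.Ico k0 (k0 + n))
    (fun j => 2 ^ (4 * j) * b j) ⟨k, hk⟩
  set L : ℝ := 2 ^ (4 * m) * b m with hL
  have hL0 : 0 ≤ L := by
    rw [hL]
    exact mul_nonneg (by positivity) (hb m)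
  obtain ⟨μ, hμ0, hμ⟩ : ∃ μ : ℝ, 0 ≤ μ ∧ μ ^ 4 = L := by
    refine ⟨L ^ ((1 : ℝ) / 4), Real.rpow_nonneg hL0 _, ?_⟩
    rw [← Real.rpow_natCast, ← Real.rpow_mul hL0]
    norm_num
  have hbj : ∀ j ∈ Finset.Ico k0 (k0 + n), b j ≤ (μ / 2 ^ j) ^ 4 := by
    intro j hj
    have h1 : 2 ^ (4 * j) * b j ≤ L := hmax j hj
    rw [← hμ] at h1
    have h2 : (μ / 2 ^ j) ^ 4 = μ ^ 4 / 2 ^ (4 * j) := by
      rw [div_pow, ← pow_mul]
      ring_nf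
    rw [h2, le_div_iff₀ (by positivity)]
    linarith
  have hbr : ∀ j ∈ Finset.Ico k0 (k0 + n),
      1 / 2 ^ (2 * j) * b j ^ ((3 : ℝ) / 4) ≤ μ ^ 3 * (1 / 2 ^ (5 * j)) := by
    intro j hj
    have h0 : 0 ≤ μ / 2 ^ j := by positivity
    have h1 : b j ^ ((3 : ℝ) / 4) ≤ ((μ / 2 ^ j) ^ 4) ^ ((3 : ℝ) / 4) :=
      Real.rpow_le_rpow (hb j) (hbj j hj) (by norm_num)
    have h2 : ((μ / 2 ^ j) ^ 4) ^ ((3 : ℝ) / 4) = (μ / 2 ^ j) ^ 3 := lam_pow h0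
    rw [h2] at h1
    have h3 : (1 : ℝ) / 2 ^ (2 * j) * (μ / 2 ^ j) ^ 3 = μ ^ 3 * (1 / 2 ^ (5 * j)) := by
      have h4 : (2 : ℝ) ^ (5 * j) = 2 ^ (2 * j) * (2 ^ j) ^ 3 := by
        rw [← pow_mul, ← pow_add]
        ring_nf
      rw [h4, div_pow]
      have h5 : (0 : ℝ) < 2 ^ (2 * j) := by positivity
      have h6 : (0 : ℝ) < (2 ^ j) ^ 3 := by positivity
      field_simp
    rw [← h3]
    exact mul_le_mul_of_nonneg_left h1 (by positivity)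
  have hm' := Finset.mem_Ico.1 hm
  have hμ3 : 0 ≤ μ ^ 3 := by positivity
  have hp4 : (0 : ℝ) < 2 ^ (4 * m) := by positivity
  have hS1 : (∑ j ∈ Finset.Ico m (k0 + n), 1 / 2 ^ (2 * j) * b j ^ ((3 : ℝ) / 4))
      ≤ 2 * μ ^ 3 * (1 / 2 ^ (4 * m)) := by
    calc (∑ j ∈ Finset.Ico m (k0 + n), 1 / 2 ^ (2 * j) * b j ^ ((3 : ℝ) / 4))
        ≤ ∑ j ∈ Finset.Ico m (k0 + n), μ ^ 3 * (1 / 2 ^ (5 * j)) := by
          refine Finset.sum_le_sum fun j hj => hbr j ?_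
          have := Finset.mem_Ico.1 hj
          exact Finset.mem_Ico.2 ⟨by omega, by omega⟩
      _ = μ ^ 3 * ∑ j ∈ Finset.Ico m (k0 + n), (1 : ℝ) / 2 ^ (5 * j) := by
          rw [Finset.mul_sum]
      _ ≤ μ ^ 3 * (2 / 2 ^ (5 * m)) := mul_le_mul_of_nonneg_left (lam_geom' _ _) hμ3
      _ ≤ μ ^ 3 * (2 * (1 / 2 ^ (4 * m))) := by
          refine mul_le_mul_of_nonneg_left ?_ hμ3
          rw [mul_one_div]
          refine div_le_div_of_nonneg_left (by norm_num) hp4 ?_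
          exact pow_le_pow_right₀ (by norm_num) (by omega)
      _ = 2 * μ ^ 3 * (1 / 2 ^ (4 * m)) := by ring
  have hS2 : 1 / 2 ^ (20 * m) * (∑ j ∈ Finset.Ico k0 m, 1 / 2 ^ (2 * j) * b j ^ ((3 : ℝ) / 4))
      ≤ 2 * μ ^ 3 * (1 / 2 ^ (4 * m)) := by
    have h1 : (∑ j ∈ Finset.Ico k0 m, 1 / 2 ^ (2 * j) * b j ^ ((3 : ℝ) / 4)) ≤ 2 * μ ^ 3 := by
      calc (∑ j ∈ Finset.Ico k0 m, 1 / 2 ^ (2 * j) * b j ^ ((3 : ℝ) / 4))
          ≤ ∑ j ∈ Finset.Ico k0 m, μ ^ 3 * (1 / 2 ^ (5 * j)) := by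
            refine Finset.sum_le_sum fun j hj => hbr j ?_
            have := Finset.mem_Ico.1 hj
            exact Finset.mem_Ico.2 ⟨by omega, by omega⟩
        _ = μ ^ 3 * ∑ j ∈ Finset.Ico k0 m, (1 : ℝ) / 2 ^ (5 * j) := by
            rw [Finset.mul_sum]
        _ ≤ μ ^ 3 * (2 / 2 ^ (5 * k0)) := mul_le_mul_of_nonneg_left (lam_geom' _ _) hμ3
        _ ≤ μ ^ 3 * 2 := by
            refine mul_le_mul_of_nonneg_left ?_ hμ3
            rw [div_le_iff₀ (by positivity)]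
            have : (1 : ℝ) ≤ 2 ^ (5 * k0) := one_le_pow₀ (by norm_num)
            linarith
        _ = 2 * μ ^ 3 := by ring
    have h2 : (1 : ℝ) / 2 ^ (20 * m) ≤ 1 / 2 ^ (4 * m) := by
      refine div_le_div_of_nonneg_left (by norm_num) hp4 ?_
      exact pow_le_pow_right₀ (by norm_num) (by omega)
    have h3 : (0 : ℝ) ≤ 1 / 2 ^ (20 * m) := by positivity
    calc 1 / 2 ^ (20 * m) * (∑ j ∈ Finset.Ico k0 m, 1 / 2 ^ (2 * j) * b j ^ ((3 : ℝ) / 4))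
        ≤ 1 / 2 ^ (20 * m) * (2 * μ ^ 3) := mul_le_mul_of_nonneg_left h1 h3
      _ ≤ 1 / 2 ^ (4 * m) * (2 * μ ^ 3) := mul_le_mul_of_nonneg_right h2 (by positivity)
      _ = 2 * μ ^ 3 * (1 / 2 ^ (4 * m)) := by ring
  have hmain := hyp m hm
  have h1 : b m ≤ C * ((1 + 4 * μ ^ 3) * (1 / 2 ^ (4 * m))) := by
    refine hmain.trans (mul_le_mul_of_nonneg_left ?_ hC.le)
    linarith
  have h2 : μ ^ 4 ≤ C + 4 * C * μ ^ 3 := by
    rw [hμ, hL]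
    calc 2 ^ (4 * m) * b m ≤ 2 ^ (4 * m) * (C * ((1 + 4 * μ ^ 3) * (1 / 2 ^ (4 * m)))) :=
          mul_le_mul_of_nonneg_left h1 hp4.le
      _ = C + 4 * C * μ ^ 3 := by
          field_simp
  have h3 : μ ^ 4 ≤ (8 * C) ^ 4 + 2 * C := by
    rcases le_or_gt μ (8 * C) with h | h
    · have : μ ^ 4 ≤ (8 * C) ^ 4 := pow_le_pow_left₀ hμ0 h 4
      linarith
    · have h4 : 8 * C * μ ^ 3 ≤ μ * μ ^ 3 := mul_le_mul_of_nonneg_right h.le hμ3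
      have h5 : μ * μ ^ 3 = μ ^ 4 := by ring
      have h6 : (0 : ℝ) ≤ (8 * C) ^ 4 := by positivity
      linarith
  have hk4 : 2 ^ (4 * k) * b k ≤ L := hmax k hk
  rw [le_div_iff₀ (by positivity)]
  rw [← hμ] at hk4
  linarith

end Pool.Agent.Helper90.KV
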