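import Pool.Agent.Helper41.KV.GoalsE

/-!
Packet KV-GREEN, part A: the two explicit solutions of `L u = 0`.
-/

set_option autoImplicit false

namespace Pool.Agent.Helper90.KV

open Real MeasureTheory Set Filter Topology
open Pool.Agent.Helper41.KV

noncomputable def T (y : ℝ) : ℝ := Real.tanh (2 * y)
noncomputable def ph (y : ℝ) : ℝ := Q y * T y
noncomputable def ph1 (y : ℝ) : ℝ := Q y * (2 - 3 * T y ^ 2)
noncomputable def Z (y : ℝ) : ℝ := 1 / Q y - 2 / 3 * Q y ^ 3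
noncomputable def Z1 (y : ℝ) : ℝ := T y / Q y + 2 * Q y ^ 3 * T y

theorem T_eq (y : ℝ) : T y = Real.sinh (2 * y) / Real.cosh (2 * y) :=
  Real.tanh_eq_sinh_div_cosh _

theorem one_sub_T_sq (y : ℝ) : 1 - T y ^ 2 = 1 / Real.cosh (2 * y) ^ 2 := by
  have hc : Real.cosh (2 * y) ≠ 0 := (Real.cosh_pos _).ne'
  have h := Real.cosh_sq (2 * y)
  rw [T_eq, div_pow]
  field_simp
  linarith

theorem T_sq_le (y : ℝ) : T y ^ 2 ≤ 1 := by
  have h := one_sub_T_sq y
  have h2 : 0 ≤ 1 / Real.cosh (2 * y) ^ 2 := by positivity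
  linarith

theorem abs_T_le (y : ℝ) : |T y| ≤ 1 := by
  have h := T_sq_le y
  exact (sq_le_one_iff_abs_le_one (T y)).1 h

theorem hasDerivAt_T (y : ℝ) : HasDerivAt T (2 * (1 - T y ^ 2)) y := by
  have hc : Real.cosh (2 * y) ≠ 0 := (Real.cosh_pos _).ne'
  have h0 : HasDerivAt (fun y : ℝ => 2 * y) 2 y := by
    have := (hasDerivAt_id y).const_mul 2
    rw [mul_one] at this
    exact this
  have h1 : HasDerivAt (fun y : ℝ => Real.sinh (2 * y)) (Real.cosh (2 * y) * 2) y :=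
    (Real.hasDerivAt_sinh (2 * y)).comp y h0
  have h2 : HasDerivAt (fun y : ℝ => Real.cosh (2 * y)) (Real.sinh (2 * y) * 2) y :=
    (Real.hasDerivAt_cosh (2 * y)).comp y h0
  have h3 := h1.div h2 hc
  have h4 : T = (fun y : ℝ => Real.sinh (2 * y)) / (fun y : ℝ => Real.cosh (2 * y)) := by
    funext z
    exact T_eq z
  rw [h4]
  refine h3.congr_deriv ?_
  simp only [Pi.div_apply]
  have h := Real.cosh_sq (2 * y)
  field_simp

theorem contDiff_T : ContDiff ℝ (⊤ : ℕ∞) T := by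
  have h4 : T = fun y : ℝ => Real.sinh (2 * y) / Real.cosh (2 * y) := by
    funext z
    exact T_eq z
  rw [h4]
  refine ContDiff.div ?_ ?_ (fun y => (Real.cosh_pos _).ne')
  · exact Real.contDiff_sinh.comp (contDiff_const.mul contDiff_id)
  · exact Real.contDiff_cosh.comp (contDiff_const.mul contDiff_id)

section

variable (hQ : S_QF)

include hQ

theorem Q_pos (y : ℝ) : 0 < Q y := hQ.2.1 y

theorem Q_four (y : ℝ) : Q y ^ 4 = 3 * (1 - T y ^ 2) := by
  rw [hQ.2.2.2.1 y, one_sub_T_sq]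
  ring

theorem hasDerivAt_Q (y : ℝ) : HasDerivAt Q (-(Q y * T y)) y := by
  have h1 : DifferentiableAt ℝ Q y := (hQ.1.differentiable (by simp)).differentiableAt
  have h2 := h1.hasDerivAt
  rw [hQ.2.2.2.2.1 y] at h2
  exact h2

theorem hasDerivAt_ph (y : ℝ) : HasDerivAt ph (ph1 y) y := by
  have h := (hasDerivAt_Q hQ y).mul (hasDerivAt_T y)
  refine h.congr_deriv ?_
  unfold ph1
  ring

theorem hasDerivAt_ph1 (y : ℝ) : HasDerivAt ph1 (ph y - 5 * Q y ^ 4 * ph y) y := by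
  have h := (hasDerivAt_Q hQ y).mul (((hasDerivAt_T y).pow 2).const_mul 3 |>.const_sub 2)
  refine h.congr_deriv ?_
  have h4 := Q_four hQ y
  rw [h4]
  unfold ph
  simp only [Pi.pow_apply]
  push_cast
  ring

theorem hasDerivAt_Z (y : ℝ) : HasDerivAt Z (Z1 y) y := by
  have hq := (Q_pos hQ y).ne'
  have h1 := (hasDerivAt_Q hQ y).inv hq
  have h2 := ((hasDerivAt_Q hQ y).pow 3).const_mul (2 / 3)
  have h3 := h1.sub h2
  have h4 : Z = (Q⁻¹ - fun y => 2 / 3 * (Q ^ 3) y) := by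
    funext z
    simp only [Z, Pi.sub_apply, Pi.inv_apply, Pi.pow_apply, one_div]
  rw [h4]
  refine h3.congr_deriv ?_
  unfold Z1
  field_simp
  push_cast
  ring

theorem hasDerivAt_Z1 (y : ℝ) : HasDerivAt Z1 (Z y - 5 * Q y ^ 4 * Z y) y := by
  have hq := (Q_pos hQ y).ne'
  have h1 := (hasDerivAt_T y).div (hasDerivAt_Q hQ y) hq
  have h2 := (((hasDerivAt_Q hQ y).pow 3).const_mul 2).mul (hasDerivAt_T y)
  have h3 := h1.add h2
  refine h3.congr_deriv ?_
  have h4 := Q_four hQ y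
  have h5 : Q y ^ 4 * T y ^ 2 = Q y ^ 4 - Q y ^ 8 / 3 := by
    have : T y ^ 2 = 1 - Q y ^ 4 / 3 := by linarith
    rw [this]
    ring
  unfold Z
  simp only [Pi.pow_apply]
  have h6 : T y ^ 2 = 1 - Q y ^ 4 / 3 := by linarith
  field_simp
  push_cast
  ring_nf
  simp only [h6]
  ring

theorem wron (y : ℝ) : ph y * Z1 y - ph1 y * Z y = 2 := by
  have hq := (Q_pos hQ y).ne'
  have h4 := Q_four hQ y
  have h6 : T y ^ 2 = 1 - Q y ^ 4 / 3 := by linarith
  unfold ph Z1 ph1 Z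
  field_simp
  ring_nf
  simp only [h6]
  ring

theorem contDiff_ph : ContDiff ℝ (⊤ : ℕ∞) ph := hQ.1.mul contDiff_T

theorem contDiff_Z : ContDiff ℝ (⊤ : ℕ∞) Z := by
  refine ContDiff.sub ?_ ?_
  · exact contDiff_const.div hQ.1 (fun y => (Q_pos hQ y).ne')
  · exact contDiff_const.mul (hQ.1.pow 3)

theorem bounds : ∃ M : ℝ, 0 < M ∧ ∀ y, |ph y| ≤ M * Real.exp (-|y|) ∧
    |ph1 y| ≤ M * Real.exp (-|y|) ∧ |Z y| ≤ M * Real.exp |y| ∧ |Z1 y| ≤ M * Real.exp |y| := by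
  obtain ⟨C, hC⟩ := hQ.2.2.2.2.2.2.1 0
  have hC' : ∀ y, Q y ≤ C * Real.exp (-|y|) := by
    intro y
    have := hC y
    rw [iteratedDeriv_zero, abs_of_pos (Q_pos hQ y)] at this
    exact this
  have hC0 : 0 < C := by
    have h1 := hC' 0
    have h2 := Q_pos hQ 0
    rw [abs_zero, neg_zero, Real.exp_zero, mul_one] at h1
    linarith
  have hl := hQ.2.2.2.2.2.2.2
  refine ⟨2 * C + 1 + 2 * C ^ 3, by positivity, fun y => ?_⟩
  have hq := Q_pos hQ y
  have he : 0 < Real.exp (-|y|) := Real.exp_pos _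
  have he1 : 1 ≤ Real.exp |y| := Real.one_le_exp (abs_nonneg y)
  have he0 : Real.exp (-|y|) ≤ 1 := by
    rw [Real.exp_le_one_iff]
    linarith [abs_nonneg y]
  have hT := abs_T_le y
  have hT2 := T_sq_le y
  have hT0 := sq_nonneg (T y)
  have hqC := hC' y
  have hC3 : 0 < C ^ 3 := by positivity
  have hq1 : Q y ≤ C := hqC.trans (by
    calc C * Real.exp (-|y|) ≤ C * 1 := mul_le_mul_of_nonneg_left he0 hC0.le
      _ = C := mul_one C)
  have hq3 : Q y ^ 3 ≤ C ^ 3 := pow_le_pow_left₀ hq.le hq1 3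
  have hq30 : 0 < Q y ^ 3 := by positivity
  have hinv : 1 / Q y ≤ Real.exp |y| := by
    rw [div_le_iff₀ hq]
    calc (1 : ℝ) = Real.exp |y| * Real.exp (-|y|) := by rw [← Real.exp_add]; simp
      _ ≤ Real.exp |y| * Q y := mul_le_mul_of_nonneg_left (hl y) (Real.exp_pos _).le
  have hinv0 : 0 < 1 / Q y := by positivity
  refine ⟨?_, ?_, ?_, ?_⟩
  · unfold ph
    rw [abs_mul, abs_of_pos hq]
    calc Q y * |T y| ≤ Q y * 1 := mul_le_mul_of_nonneg_left hT hq.le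
      _ ≤ C * Real.exp (-|y|) := by rw [mul_one]; exact hqC
      _ ≤ (2 * C + 1 + 2 * C ^ 3) * Real.exp (-|y|) :=
        mul_le_mul_of_nonneg_right (by linarith) he.le
  · unfold ph1
    rw [abs_mul, abs_of_pos hq]
    have h2 : |2 - 3 * T y ^ 2| ≤ 2 := by
      rw [abs_le]
      constructor <;> linarith
    calc Q y * |2 - 3 * T y ^ 2| ≤ (C * Real.exp (-|y|)) * 2 :=
        mul_le_mul hqC h2 (abs_nonneg _) (by positivity)
      _ = (2 * C) * Real.exp (-|y|) := by ring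
      _ ≤ (2 * C + 1 + 2 * C ^ 3) * Real.exp (-|y|) :=
        mul_le_mul_of_nonneg_right (by linarith) he.le
  · unfold Z
    have h1 : |1 / Q y - 2 / 3 * Q y ^ 3| ≤ 1 / Q y + 2 / 3 * Q y ^ 3 := by
      rw [abs_le]
      constructor <;> linarith
    calc |1 / Q y - 2 / 3 * Q y ^ 3| ≤ 1 / Q y + 2 / 3 * Q y ^ 3 := h1
      _ ≤ Real.exp |y| + 2 * C ^ 3 * 1 := by linarith
      _ ≤ Real.exp |y| + 2 * C ^ 3 * Real.exp |y| := by
        have := mul_le_mul_of_nonneg_left he1 (show 0 ≤ 2 * C ^ 3 by positivity)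
        linarith
      _ = (1 + 2 * C ^ 3) * Real.exp |y| := by ring
      _ ≤ (2 * C + 1 + 2 * C ^ 3) * Real.exp |y| :=
        mul_le_mul_of_nonneg_right (by linarith) (Real.exp_pos _).le
  · unfold Z1
    have h2 : |T y / Q y| ≤ 1 / Q y := by
      rw [abs_div, abs_of_pos hq]
      exact div_le_div_of_nonneg_right hT hq.le
    have h3 : |2 * Q y ^ 3 * T y| ≤ 2 * Q y ^ 3 := by
      rw [abs_mul, abs_of_pos (by positivity : 0 < 2 * Q y ^ 3)]
      calc 2 * Q y ^ 3 * |T y| ≤ 2 * Q y ^ 3 * 1 :=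
          mul_le_mul_of_nonneg_left hT (by positivity)
        _ = 2 * Q y ^ 3 := mul_one _
    calc |T y / Q y + 2 * Q y ^ 3 * T y| ≤ |T y / Q y| + |2 * Q y ^ 3 * T y| := abs_add_le _ _
      _ ≤ 1 / Q y + 2 * Q y ^ 3 := add_le_add h2 h3
      _ ≤ Real.exp |y| + 2 * C ^ 3 * 1 := by linarith
      _ ≤ Real.exp |y| + 2 * C ^ 3 * Real.exp |y| := by
        have := mul_le_mul_of_nonneg_left he1 (show 0 ≤ 2 * C ^ 3 by positivity)
        linarith
      _ = (1 + 2 * C ^ 3) * Real.exp |y| := by ring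
      _ ≤ (2 * C + 1 + 2 * C ^ 3) * Real.exp |y| :=
        mul_le_mul_of_nonneg_right (by linarith) (Real.exp_pos _).le

end

end Pool.Agent.Helper90.KV
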