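import Pool.Agent.Helper41.KV.GoalsE

/-!
Packet KV-GREEN, part B: bounds for primitives.
-/

set_option autoImplicit false

namespace Pool.Agent.Helper90.KV

open Real MeasureTheory Set Filter Topology

theorem prim_le_pos {f : ℝ → ℝ} {K a : ℝ} (ha : 0 < a) (hK : 0 ≤ K)
    (hf : ∀ t, |f t| ≤ K * Real.exp (a * |t|)) (y : ℝ) (hy : 0 ≤ y) :
    |∫ t in (0 : ℝ)..y, f t| ≤ K / a * Real.exp (a * y) := by
  have hcont : Continuous fun t : ℝ => K * Real.exp (a * t) := by fun_prop
  have h1 : ‖∫ t in (0 : ℝ)..y, f t‖ ≤ ∫ t in (0 : ℝ)..y, K * Real.exp (a * t) := by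
    refine intervalIntegral.norm_integral_le_of_norm_le hy ?_ (hcont.intervalIntegrable _ _)
    refine Filter.Eventually.of_forall (fun t ht => ?_)
    have h2 := hf t
    rw [abs_of_pos ht.1] at h2
    rw [Real.norm_eq_abs]
    exact h2
  have h2 : ∫ t in (0 : ℝ)..y, K * Real.exp (a * t) =
      K / a * Real.exp (a * y) - K / a * Real.exp (a * 0) := by
    refine intervalIntegral.integral_eq_sub_of_hasDerivAt (f := fun t => K / a * Real.exp (a * t))
      (fun t _ => ?_) (hcont.intervalIntegrable _ _)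
    have h3 : HasDerivAt (fun t : ℝ => a * t) a t := by
      have := (hasDerivAt_id t).const_mul a
      rw [mul_one] at this
      exact this
    refine ((h3.exp).const_mul (K / a)).congr_deriv ?_
    field_simp
  rw [Real.norm_eq_abs] at h1
  rw [h2] at h1
  have h4 : 0 ≤ K / a * Real.exp (a * 0) := by positivity
  linarith

theorem prim_le {f : ℝ → ℝ} {K a : ℝ} (ha : 0 < a) (hK : 0 ≤ K)
    (hf : ∀ t, |f t| ≤ K * Real.exp (a * |t|)) (y : ℝ) :
    |∫ t in (0 : ℝ)..y, f t| ≤ K / a * Real.exp (a * |y|) := by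
  rcases le_total 0 y with hy | hy
  · rw [abs_of_nonneg hy]
    exact prim_le_pos ha hK hf y hy
  · have h1 := prim_le_pos (f := fun t => f (-t)) ha hK
      (fun t => by
        have := hf (-t)
        rw [abs_neg] at this
        exact this) (-y) (by linarith)
    rw [intervalIntegral.integral_comp_neg, neg_neg, neg_zero, intervalIntegral.integral_symm,
      abs_neg] at h1
    rw [abs_of_nonpos hy]
    exact h1

theorem tail_le_pos {f : ℝ → ℝ} {K b : ℝ} (hb : 0 < b)
    (hf : ∀ t, |f t| ≤ K * Real.exp (-(b * |t|))) (y : ℝ) (hy : 0 ≤ y) :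
    |∫ t in Ioi y, f t| ≤ K / b * Real.exp (-(b * y)) := by
  have h0 : IntegrableOn (fun t : ℝ => K * Real.exp ((-b) * t)) (Ioi y) :=
    (integrableOn_exp_mul_Ioi (by linarith : -b < 0) y).const_mul K
  have h1 : ‖∫ t in Ioi y, f t‖ ≤ ∫ t in Ioi y, K * Real.exp ((-b) * t) := by
    refine norm_integral_le_of_norm_le h0 ?_
    refine (ae_restrict_iff' measurableSet_Ioi).2 (Filter.Eventually.of_forall (fun t ht => ?_))
    have h2 := hf t
    have ht0 : 0 < t := lt_of_le_of_lt hy ht
    rw [abs_of_pos ht0] at h2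
    rw [Real.norm_eq_abs, neg_mul]
    exact h2
  rw [integral_const_mul, integral_exp_mul_Ioi (by linarith : -b < 0), Real.norm_eq_abs] at h1
  refine h1.trans (le_of_eq ?_)
  rw [neg_mul]
  field_simp

theorem tail_le {f : ℝ → ℝ} {K b : ℝ} (hb : 0 < b) (hi : Integrable f) (h0 : ∫ t, f t = 0)
    (hf : ∀ t, |f t| ≤ K * Real.exp (-(b * |t|))) (y : ℝ) :
    |∫ t in Ioi y, f t| ≤ K / b * Real.exp (-(b * |y|)) := by
  rcases le_total 0 y with hy | hy
  · rw [abs_of_nonneg hy]
    exact tail_le_pos hb hf y hy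
  · have h1 := tail_le_pos (f := fun t => f (-t)) hb
      (fun t => by
        have := hf (-t)
        rw [abs_neg] at this
        exact this) (-y) (by linarith)
    rw [integral_comp_neg_Ioi, neg_neg] at h1
    have h2 := intervalIntegral.integral_Iic_add_Ioi (f := f) (b := y) hi.integrableOn
      hi.integrableOn
    rw [h0] at h2
    have h3 : ∫ t in Ioi y, f t = -∫ t in Iic y, f t := by linarith
    rw [h3, abs_neg, abs_of_nonpos hy]
    exact h1

theorem hasDerivAt_prim {f : ℝ → ℝ} (hc : Continuous f) (y : ℝ) :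
    HasDerivAt (fun y => ∫ t in (0 : ℝ)..y, f t) (f y) y :=
  (hc.integral_hasStrictDerivAt 0 y).hasDerivAt

theorem hasDerivAt_tail {f : ℝ → ℝ} (hc : Continuous f) (hi : Integrable f) (y : ℝ) :
    HasDerivAt (fun y => ∫ t in Ioi y, f t) (-f y) y := by
  have h1 : (fun y => ∫ t in Ioi y, f t) =
      fun y => (∫ t in Ioi (0 : ℝ), f t) - ∫ t in (0 : ℝ)..y, f t := by
    funext z
    have := intervalIntegral.integral_interval_add_Ioi (f := f) (a := 0) (b := z)
      hi.integrableOn hi.integrableOn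
    linarith
  rw [h1]
  exact (hasDerivAt_prim hc y).const_sub _

end Pool.Agent.Helper90.KV
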