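import Pool.Agent.Helper90.KV.GreenA
import Pool.Agent.Helper90.KV.GreenB

/-!
Packet KV-GREEN, part C: the particular solution.
-/

set_option autoImplicit false

namespace Pool.Agent.Helper90.KV

open Real MeasureTheory Set Filter Topology
open Pool.Agent.Helper41.KV

/-- the particular solution -/
noncomputable def w0 (g : ℝ → ℝ) (y : ℝ) : ℝ :=
  (1 / 2) * (ph y * (∫ t in (0 : ℝ)..y, Z t * g t) + Z y * ∫ t in Ioi y, ph t * g t)

/-- its derivative -/
noncomputable def w01 (g : ℝ → ℝ) (y : ℝ) : ℝ :=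
  (1 / 2) * (ph1 y * (∫ t in (0 : ℝ)..y, Z t * g t) + Z1 y * ∫ t in Ioi y, ph t * g t)

theorem comb_le {p z A B M KA KB μ r : ℝ} (hM : 0 ≤ M)
    (hp : |p| ≤ M * Real.exp (-r)) (hz : |z| ≤ M * Real.exp r)
    (hA : |A| ≤ KA * Real.exp ((1 - μ) * r)) (hB : |B| ≤ KB * Real.exp (-((1 + μ) * r))) :
    |1 / 2 * (p * A + z * B)| ≤ M * (KA + KB) / 2 * Real.exp (-(μ * r)) := by
  have h1 : |p * A| ≤ (M * Real.exp (-r)) * (KA * Real.exp ((1 - μ) * r)) := by
    rw [abs_mul]
    exact mul_le_mul hp hA (abs_nonneg _) (by positivity)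
  have h2 : |z * B| ≤ (M * Real.exp r) * (KB * Real.exp (-((1 + μ) * r))) := by
    rw [abs_mul]
    exact mul_le_mul hz hB (abs_nonneg _) (by positivity)
  have h3 : (M * Real.exp (-r)) * (KA * Real.exp ((1 - μ) * r)) =
      M * KA * Real.exp (-(μ * r)) := by
    have : Real.exp (-r) * Real.exp ((1 - μ) * r) = Real.exp (-(μ * r)) := by
      rw [← Real.exp_add]
      congr 1
      ring
    calc (M * Real.exp (-r)) * (KA * Real.exp ((1 - μ) * r)) =
        M * KA * (Real.exp (-r) * Real.exp ((1 - μ) * r)) := by ring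
      _ = _ := by rw [this]
  have h4 : (M * Real.exp r) * (KB * Real.exp (-((1 + μ) * r))) =
      M * KB * Real.exp (-(μ * r)) := by
    have : Real.exp r * Real.exp (-((1 + μ) * r)) = Real.exp (-(μ * r)) := by
      rw [← Real.exp_add]
      congr 1
      ring
    calc (M * Real.exp r) * (KB * Real.exp (-((1 + μ) * r))) =
        M * KB * (Real.exp r * Real.exp (-((1 + μ) * r))) := by ring
      _ = _ := by rw [this]
  rw [h3] at h1
  rw [h4] at h2
  rw [abs_mul, abs_of_pos (by norm_num : (0 : ℝ) < 1 / 2)]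
  have h5 := abs_add_le (p * A) (z * B)
  have h6 : M * (KA + KB) / 2 * Real.exp (-(μ * r)) =
      1 / 2 * (M * KA * Real.exp (-(μ * r)) + M * KB * Real.exp (-(μ * r))) := by ring
  rw [h6]
  linarith

theorem hasDerivAt_w0 (hQ : S_QF) {g : ℝ → ℝ} (hg : Continuous g)
    (hi : Integrable fun t => ph t * g t) (y : ℝ) : HasDerivAt (w0 g) (w01 g y) y := by
  have hZ : Continuous fun t => Z t * g t := (contDiff_Z hQ).continuous.mul hg
  have hp : Continuous fun t => ph t * g t := (contDiff_ph hQ).continuous.mul hg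
  have h1 := ((hasDerivAt_ph hQ y).mul (hasDerivAt_prim hZ y)).add
    ((hasDerivAt_Z hQ y).mul (hasDerivAt_tail hp hi y))
  refine (h1.const_mul (1 / 2)).congr_deriv ?_
  unfold w01
  ring

theorem hasDerivAt_w01 (hQ : S_QF) {g : ℝ → ℝ} (hg : Continuous g)
    (hi : Integrable fun t => ph t * g t) (y : ℝ) :
    HasDerivAt (w01 g) (w0 g y - 5 * Q y ^ 4 * w0 g y - g y) y := by
  have hZ : Continuous fun t => Z t * g t := (contDiff_Z hQ).continuous.mul hg
  have hp : Continuous fun t => ph t * g t := (contDiff_ph hQ).continuous.mul hg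
  have h1 := ((hasDerivAt_ph1 hQ y).mul (hasDerivAt_prim hZ y)).add
    ((hasDerivAt_Z1 hQ y).mul (hasDerivAt_tail hp hi y))
  refine (h1.const_mul (1 / 2)).congr_deriv ?_
  have hw := wron hQ y
  unfold w0
  have h2 : 1 / 2 * (ph1 y * (Z y * g y) + Z1 y * -(ph y * g y)) = -g y := by
    have : 1 / 2 * (ph1 y * (Z y * g y) + Z1 y * -(ph y * g y)) =
        -(1 / 2 * (ph y * Z1 y - ph1 y * Z y) * g y) := by ring
    rw [this, hw]
    ring
  linear_combination h2

theorem w0_bound_aux (hQ : S_QF) {g : ℝ → ℝ}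
    (hi : Integrable fun t => ph t * g t) (h0 : ∫ t, ph t * g t = 0) {μ G : ℝ} (hμ0 : 0 ≤ μ)
    (hμ1 : μ < 1) (hG : ∀ t, |g t| ≤ G * Real.exp (-(μ * |t|))) :
    ∃ C : ℝ, ∀ y, |w0 g y| ≤ C * Real.exp (-(μ * |y|)) ∧ |w01 g y| ≤ C * Real.exp (-(μ * |y|)) := by
  obtain ⟨M, hM, hb⟩ := bounds hQ
  have hG0 : 0 ≤ G := by
    have := hG 0
    rw [abs_zero, mul_zero, neg_zero, Real.exp_zero, mul_one] at this
    exact (abs_nonneg _).trans this
  have hA : ∀ y, |∫ t in (0 : ℝ)..y, Z t * g t| ≤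
      M * G / (1 - μ) * Real.exp ((1 - μ) * |y|) := by
    intro y
    refine prim_le (by linarith) (by positivity) (fun t => ?_) y
    rw [abs_mul]
    calc |Z t| * |g t| ≤ (M * Real.exp |t|) * (G * Real.exp (-(μ * |t|))) :=
        mul_le_mul (hb t).2.2.1 (hG t) (abs_nonneg _) (by positivity)
      _ = M * G * (Real.exp |t| * Real.exp (-(μ * |t|))) := by ring
      _ = M * G * Real.exp ((1 - μ) * |t|) := by
        rw [← Real.exp_add]
        congr 2
        ring
  have hB : ∀ y, |∫ t in Ioi y, ph t * g t| ≤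
      M * G / (1 + μ) * Real.exp (-((1 + μ) * |y|)) := by
    intro y
    refine tail_le (by linarith) hi h0 (fun t => ?_) y
    rw [abs_mul]
    calc |ph t| * |g t| ≤ (M * Real.exp (-|t|)) * (G * Real.exp (-(μ * |t|))) :=
        mul_le_mul (hb t).1 (hG t) (abs_nonneg _) (by positivity)
      _ = M * G * (Real.exp (-|t|) * Real.exp (-(μ * |t|))) := by ring
      _ = M * G * Real.exp (-((1 + μ) * |t|)) := by
        rw [← Real.exp_add]
        congr 2
        ring
  refine ⟨M * (M * G / (1 - μ) + M * G / (1 + μ)) / 2, fun y => ⟨?_, ?_⟩⟩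
  · exact comb_le hM.le (hb y).1 (hb y).2.2.1 (hA y) (hB y)
  · exact comb_le hM.le (hb y).2.1 (hb y).2.2.2 (hA y) (hB y)

theorem w0_bound (hQ : S_QF) {g : ℝ → ℝ} (hgE : IsE g)
    (hi : Integrable fun t => ph t * g t) (h0 : ∫ t, ph t * g t = 0) (μ : ℝ) (hμ1 : μ < 1) :
    ∃ C : ℝ, ∀ y, |w0 g y| ≤ C * Real.exp (-(μ * |y|)) ∧ |w01 g y| ≤ C * Real.exp (-(μ * |y|)) := by
  rcases le_total 0 μ with hμ | hμ
  · obtain ⟨G, hG⟩ := hgE.2 0 μ hμ1
    exact w0_bound_aux hQ hi h0 hμ hμ1 (fun t => by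
      have := hG t
      rw [iteratedDeriv_zero] at this
      exact this)
  · obtain ⟨G, hG⟩ := hgE.2 0 0 one_pos
    obtain ⟨C, hC⟩ := w0_bound_aux hQ hi h0 le_rfl one_pos (fun t => by
      have := hG t
      rw [iteratedDeriv_zero] at this
      exact this)
    have hC' : ∀ y, |w0 g y| ≤ C ∧ |w01 g y| ≤ C := by
      intro y
      have := hC y
      rw [zero_mul, neg_zero, Real.exp_zero, mul_one] at this
      exact this
    have hC0 : 0 ≤ C := (abs_nonneg _).trans (hC' 0).1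
    refine ⟨C, fun y => ?_⟩
    have h1 : 1 ≤ Real.exp (-(μ * |y|)) := by
      refine Real.one_le_exp ?_
      have := mul_nonpos_of_nonpos_of_nonneg hμ (abs_nonneg y)
      linarith
    have h2 : C ≤ C * Real.exp (-(μ * |y|)) := by
      calc C = C * 1 := (mul_one C).symm
        _ ≤ _ := mul_le_mul_of_nonneg_left h1 hC0
    exact ⟨(hC' y).1.trans h2, (hC' y).2.trans h2⟩

end Pool.Agent.Helper90.KV
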