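import Pool.Agent.Helper90.KV.GreenC

/-!
Packet KV-GREEN, part D: regularity of the solutions.
-/

set_option autoImplicit false

namespace Pool.Agent.Helper90.KV

open Real MeasureTheory Set Filter Topology
open Pool.Agent.Helper41.KV

def Bd (μ : ℝ) (f : ℝ → ℝ) : Prop := ∃ C : ℝ, ∀ y, |f y| ≤ C * Real.exp (-(μ * |y|))

theorem Bd.sub {μ : ℝ} {f g : ℝ → ℝ} (hf : Bd μ f) (hg : Bd μ g) : Bd μ (fun y => f y - g y) := by
  obtain ⟨C, hC⟩ := hf
  obtain ⟨D, hD⟩ := hg
  refine ⟨C + D, fun y => ?_⟩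
  have h := abs_sub (f y) (g y)
  have h1 := hC y
  have h2 := hD y
  rw [add_mul]
  linarith

theorem Bd.add {μ : ℝ} {f g : ℝ → ℝ} (hf : Bd μ f) (hg : Bd μ g) : Bd μ (fun y => f y + g y) := by
  obtain ⟨C, hC⟩ := hf
  obtain ⟨D, hD⟩ := hg
  refine ⟨C + D, fun y => ?_⟩
  have h := abs_add_le (f y) (g y)
  have h1 := hC y
  have h2 := hD y
  rw [add_mul]
  linarith

theorem Bd.sum {μ : ℝ} {f : ℕ → ℝ → ℝ} (n : ℕ) (hf : ∀ i, i < n → Bd μ (f i)) :
    Bd μ (fun y => ∑ i ∈ Finset.range n, f i y) := by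
  induction n with
  | zero =>
    refine ⟨0, fun y => ?_⟩
    simp
  | succ n ih =>
    have h1 := ih (fun i hi => hf i (by omega))
    have h2 := h1.add (hf n (by omega))
    have h3 : (fun y => ∑ i ∈ Finset.range (n + 1), f i y) =
        fun y => (∑ i ∈ Finset.range n, f i y) + f n y := by
      funext y
      rw [Finset.sum_range_succ]
    rw [h3]
    exact h2

theorem Bd.mul_bdd {μ : ℝ} {f h : ℝ → ℝ} (hf : Bd μ f) {H : ℝ} (hH : ∀ y, |h y| ≤ H) :
    Bd μ (fun y => h y * f y) := by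
  obtain ⟨C, hC⟩ := hf
  refine ⟨H * C, fun y => ?_⟩
  rw [abs_mul, mul_assoc]
  exact mul_le_mul (hH y) (hC y) (abs_nonneg _) ((abs_nonneg _).trans (hH y))

theorem isE_const_mul (hE : S_ECL1) (a : ℝ) {f : ℝ → ℝ} (hf : IsE f) : IsE (fun y => a * f y) := by
  have h1 := hE.2.2.2.2.2.1 (fun y => (Polynomial.C a).eval y) f
    (hE.2.2.2.2.2.2.2.2.2.2.2.1 (Polynomial.C a)) hf
  simp only [Polynomial.eval_C] at h1
  exact h1

theorem pot_bdd (hQ : S_QF) (hE : S_ECL1) : IsE (fun y => 5 * Q y ^ 4) := by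
  have h1 := isE_const_mul hE 15 hE.2.2.2.2.2.2.2.2.2.2.2.2.2.1
  have h2 : (fun y => 5 * Q y ^ 4) = fun y => 15 * (1 / (Real.cosh (2 * y)) ^ 2) := by
    funext y
    rw [hQ.2.2.2.1 y]
    ring
  rw [h2]
  exact h1

theorem contDiff_of_ode (hQ : S_QF) {g u u1 : ℝ → ℝ} (hg : ContDiff ℝ (⊤ : ℕ∞) g)
    (h1 : ∀ y, HasDerivAt u (u1 y) y)
    (h2 : ∀ y, HasDerivAt u1 (u y - 5 * Q y ^ 4 * u y - g y) y) :
    ContDiff ℝ (⊤ : ℕ∞) u := by
  have hd1 : deriv u = u1 := funext fun y => (h1 y).deriv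
  have hd2 : deriv u1 = fun y => u y - 5 * Q y ^ 4 * u y - g y := funext fun y => (h2 y).deriv
  have hu : Differentiable ℝ u := fun y => (h1 y).differentiableAt
  have hu1 : Differentiable ℝ u1 := fun y => (h2 y).differentiableAt
  have key : ∀ n : ℕ, ContDiff ℝ n u ∧ ContDiff ℝ n u1 := by
    intro n
    induction n with
    | zero => exact ⟨contDiff_zero.2 hu.continuous, contDiff_zero.2 hu1.continuous⟩
    | succ n ih =>
      have hQn : ContDiff ℝ n Q := hQ.1.of_le (by exact_mod_cast le_top)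
      have hgn : ContDiff ℝ n g := hg.of_le (by exact_mod_cast le_top)
      constructor
      · have h3 : ContDiff ℝ ((n : WithTop ℕ∞) + 1) u := by
          rw [contDiff_succ_iff_deriv]
          refine ⟨hu, fun h => ?_, ?_⟩
          · simp at h
          · rw [hd1]
            exact ih.2
        exact_mod_cast h3
      · have h3 : ContDiff ℝ ((n : WithTop ℕ∞) + 1) u1 := by
          rw [contDiff_succ_iff_deriv]
          refine ⟨hu1, fun h => ?_, ?_⟩
          · simp at h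
          · rw [hd2]
            exact (ih.1.sub ((contDiff_const.mul (hQn.pow 4)).mul ih.1)).sub hgn
        exact_mod_cast h3
  exact contDiff_infty.2 (fun n => (key n).1)

theorem isE_of_ode (hQ : S_QF) (hE : S_ECL1) {g u u1 : ℝ → ℝ} (hg : IsE g)
    (h1 : ∀ y, HasDerivAt u (u1 y) y)
    (h2 : ∀ y, HasDerivAt u1 (u y - 5 * Q y ^ 4 * u y - g y) y)
    (hb : ∀ μ : ℝ, μ < 1 → ∃ C : ℝ, ∀ y, |u y| ≤ C * Real.exp (-(μ * |y|)) ∧
      |u1 y| ≤ C * Real.exp (-(μ * |y|))) : IsE u := by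
  have hc := contDiff_of_ode hQ hg.1 h1 h2
  have hd1 : deriv u = u1 := funext fun y => (h1 y).deriv
  have hd2 : deriv u1 = fun y => u y - 5 * Q y ^ 4 * u y - g y := funext fun y => (h2 y).deriv
  have hpot := pot_bdd hQ hE
  refine ⟨hc, fun k μ hμ => ?_⟩
  have key : ∀ k : ℕ, Bd μ (iteratedDeriv k u) := by
    intro k
    induction k using Nat.strong_induction_on with
    | _ k ih =>
      match k, ih with
      | 0, _ =>
        obtain ⟨C, hC⟩ := hb μ hμ
        rw [iteratedDeriv_zero]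
        exact ⟨C, fun y => (hC y).1⟩
      | 1, _ =>
        obtain ⟨C, hC⟩ := hb μ hμ
        rw [iteratedDeriv_one, hd1]
        exact ⟨C, fun y => (hC y).2⟩
      | k + 2, ih =>
        rw [iteratedDeriv_succ', iteratedDeriv_succ', hd1, hd2]
        have hcu : ContDiff ℝ k u := hc.of_le (by exact_mod_cast le_top)
        have hcg : ContDiff ℝ k g := hg.1.of_le (by exact_mod_cast le_top)
        have hcp : ContDiff ℝ k (fun y => 5 * Q y ^ 4) := hpot.1.of_le (by exact_mod_cast le_top)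
        have h3 : iteratedDeriv k (fun y => u y - 5 * Q y ^ 4 * u y - g y) = fun y =>
            iteratedDeriv k u y - (∑ i ∈ Finset.range (k + 1),
              ((k.choose i : ℝ) * iteratedDeriv i (fun y => 5 * Q y ^ 4) y) *
                iteratedDeriv (k - i) u y) - iteratedDeriv k g y := by
          funext y
          rw [iteratedDeriv_fun_sub (hcu.sub (hcp.mul hcu)).contDiffAt hcg.contDiffAt,
            iteratedDeriv_fun_sub hcu.contDiffAt (hcp.mul hcu).contDiffAt,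
            iteratedDeriv_fun_mul hcp.contDiffAt hcu.contDiffAt]
        rw [h3]
        refine Bd.sub (Bd.sub (ih k (by omega)) (Bd.sum _ (fun i hi => ?_))) (hg.2 k μ hμ)
        obtain ⟨C, hC⟩ := hpot.2 i 0 one_pos
        refine (ih (k - i) (by omega)).mul_bdd (H := (k.choose i : ℝ) * C) (fun y => ?_)
        rw [abs_mul, Nat.abs_cast]
        refine mul_le_mul_of_nonneg_left ?_ (Nat.cast_nonneg _)
        have := hC y
        rw [zero_mul, neg_zero, Real.exp_zero, mul_one] at this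
        exact this
  exact key k

theorem isE_Q (hQ : S_QF) : IsE Q := by
  refine ⟨hQ.1, fun k μ hμ => ?_⟩
  obtain ⟨C, hC⟩ := hQ.2.2.2.2.2.2.1 k
  refine ⟨C, fun y => (hC y).trans ?_⟩
  have hC0 : 0 ≤ C := by
    have := (abs_nonneg _).trans (hC 0)
    rw [abs_zero, neg_zero, Real.exp_zero, mul_one] at this
    exact this
  refine mul_le_mul_of_nonneg_left (Real.exp_le_exp.2 ?_) hC0
  have := mul_le_mul_of_nonneg_right hμ.le (abs_nonneg y)
  linarith

theorem deriv_Q_eq (hQ : S_QF) (y : ℝ) : deriv Q y = -ph y := hQ.2.2.2.2.1 y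

theorem isE_ph (hQ : S_QF) (hE : S_ECL1) : IsE ph := by
  have h1 := isE_const_mul hE (-1) (hE.2.2.2.2.2.2.2.2.1 Q (isE_Q hQ))
  have h2 : ph = fun y => -1 * deriv Q y := by
    funext y
    rw [deriv_Q_eq hQ]
    ring
  rw [h2]
  exact h1

theorem isE_w0 (hQ : S_QF) (hE : S_ECL1) {g : ℝ → ℝ} (hg : IsE g) (h0 : ∫ t, ph t * g t = 0) :
    IsE (w0 g) := by
  have hi : Integrable fun t => ph t * g t :=
    hE.2.2.2.2.2.2.2.2.2.2.2.2.2.2.2.1 ph g (hE.2.1 _ (hE.1 _ (isE_ph hQ hE))) hg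
  exact isE_of_ode hQ hE hg (hasDerivAt_w0 hQ hg.1.continuous hi)
    (hasDerivAt_w01 hQ hg.1.continuous hi) (w0_bound hQ hg hi h0)

end Pool.Agent.Helper90.KV
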